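import Mathlib

/-!
Commuting approximations of the identity in a separable Banach space with the metric
approximation property (a construction of Casazza and Kalton).
-/

set_option autoImplicit false

namespace Pool.Agent.KS6_80.PB

open Filter Topology NormedSpace

noncomputable section

/-- The metric approximation property of the real or complex normed space `E`. -/
def HasMAP (𝕜 : Type*) [RCLike 𝕜] (E : Type*) [NormedAddCommGroup E] [NormedSpace 𝕜 E] : Prop :=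
  ∀ K : Set E, IsCompact K → ∀ ε : ℝ, 0 < ε → ∃ T : E →L[𝕜] E,
    FiniteDimensional 𝕜 (LinearMap.range (T : E →ₗ[𝕜] E)) ∧ ‖T‖ ≤ 1 ∧ ∀ x ∈ K, ‖T x - x‖ < ε

variable {𝕜 : Type*} [RCLike 𝕜] {X : Type*} [NormedAddCommGroup X] [NormedSpace 𝕜 X]

/-- Finite rank. -/
def FR (T : X →L[𝕜] X) : Prop := FiniteDimensional 𝕜 (LinearMap.range (T : X →ₗ[𝕜] X))

lemma FR.of_le {T : X →L[𝕜] X} (F : Submodule 𝕜 X) [FiniteDimensional 𝕜 F]
    (h : ∀ x, T x ∈ F) : FR T := by
  unfold FR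
  refine Submodule.finiteDimensional_of_le (S₂ := F) ?_
  rintro _ ⟨x, rfl⟩
  exact h x

/-- With the metric approximation property there are finite-rank operators of norm almost one
which are the identity on a given finite-dimensional subspace. -/
lemma exists_id_on (h : HasMAP 𝕜 X) (F : Submodule 𝕜 X) [FiniteDimensional 𝕜 F] (ε : ℝ)
    (hε : 0 < ε) : ∃ T : X →L[𝕜] X, FR T ∧ ‖T‖ ≤ 1 + ε ∧ ∀ y ∈ F, T y = y := by
  obtain ⟨P, hP⟩ := Submodule.ClosedComplemented.of_finiteDimensional F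
  have : ProperSpace F := FiniteDimensional.proper 𝕜 F
  have hK : IsCompact (Subtype.val '' (Metric.closedBall (0 : F) 1) : Set X) :=
    (isCompact_closedBall (0 : F) 1).image continuous_subtype_val
  obtain ⟨S, hfin, hS, hSx⟩ := h _ hK (ε / (‖P‖ + 1)) (by positivity)
  have key : ∀ y ∈ F, ‖S y - y‖ ≤ ε / (‖P‖ + 1) * ‖y‖ := by
    intro y hy
    by_cases hy0 : y = 0
    · rw [hy0]; simp
    have hyn : 0 < ‖y‖ := norm_pos_iff.2 hy0
    have h1 := hSx (((‖y‖⁻¹ : ℝ) : 𝕜) • y) ⟨⟨((‖y‖⁻¹ : ℝ) : 𝕜) • y, F.smul_mem _ hy⟩, by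
      rw [mem_closedBall_zero_iff]
      show ‖((‖y‖⁻¹ : ℝ) : 𝕜) • y‖ ≤ 1
      rw [norm_smul, RCLike.norm_ofReal, abs_of_pos (inv_pos.2 hyn), inv_mul_cancel₀ hyn.ne'], rfl⟩
    rw [map_smul, ← smul_sub, norm_smul, RCLike.norm_ofReal, abs_of_pos (inv_pos.2 hyn),
      inv_mul_lt_iff₀ hyn] at h1
    linarith
  refine ⟨S + (ContinuousLinearMap.id 𝕜 X - S) ∘L F.subtypeL ∘L P, ?_, ?_, ?_⟩
  · have hfin' : FiniteDimensional 𝕜 (LinearMap.range (S : X →ₗ[𝕜] X)) := hfin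
    refine FR.of_le (LinearMap.range (S : X →ₗ[𝕜] X) ⊔ F) fun x => ?_
    have e : (S + (ContinuousLinearMap.id 𝕜 X - S) ∘L F.subtypeL ∘L P) x =
        S (x - (P x : X)) + (P x : X) := by
      simp only [add_apply, ContinuousLinearMap.comp_apply,
        sub_apply, ContinuousLinearMap.id_apply, Submodule.subtypeL_apply,
        map_sub]
      abel
    rw [e]
    exact Submodule.add_mem_sup ⟨_, rfl⟩ (P x).2
  · refine ContinuousLinearMap.opNorm_le_bound _ (by positivity) fun x => ?_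
    have e : (S + (ContinuousLinearMap.id 𝕜 X - S) ∘L F.subtypeL ∘L P) x =
        S x - (S (P x : X) - (P x : X)) := by
      simp only [add_apply, ContinuousLinearMap.comp_apply,
        sub_apply, ContinuousLinearMap.id_apply, Submodule.subtypeL_apply]
      abel
    rw [e]
    have h1 := S.le_of_opNorm_le hS x
    have h2 := key (P x : X) (P x).2
    have h3 : ‖(P x : X)‖ ≤ ‖P‖ * ‖x‖ := P.le_opNorm x
    have h4 : ε / (‖P‖ + 1) * ‖(P x : X)‖ ≤ ε * ‖x‖ := by
      have h5 : ε / (‖P‖ + 1) * ‖(P x : X)‖ ≤ ε / (‖P‖ + 1) * ((‖P‖ + 1) * ‖x‖) := by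
        gcongr
        refine h3.trans ?_
        have := norm_nonneg x
        nlinarith [norm_nonneg P]
      have h6 : ε / (‖P‖ + 1) * ((‖P‖ + 1) * ‖x‖) = ε * ‖x‖ := by
        have : ‖P‖ + 1 ≠ 0 := by positivity
        field_simp
      linarith
    calc _ ≤ ‖S x‖ + ‖S (P x : X) - (P x : X)‖ := norm_sub_le _ _
      _ ≤ _ := by linarith
  · intro y hy
    have e : (P y : X) = y := congrArg Subtype.val (hP ⟨y, hy⟩)
    simp only [add_apply, ContinuousLinearMap.comp_apply,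
        sub_apply, ContinuousLinearMap.id_apply, Submodule.subtypeL_apply, e]
    abel

/-- Strong convergence to the identity can be checked on a dense set. -/
lemma tendsto_of_dense (A : ℕ → X →L[𝕜] X) (C : ℝ) (hC : ∀ n, ‖A n‖ ≤ C) (D : Set X)
    (hD : Dense D) (h : ∀ x ∈ D, Tendsto (fun n => A n x) atTop (𝓝 x)) (x : X) :
    Tendsto (fun n => A n x) atTop (𝓝 x) := by
  have hC0 : 0 ≤ C := (norm_nonneg _).trans (hC 0)
  rw [Metric.tendsto_atTop]
  intro ε hε
  obtain ⟨y, hy, hyx⟩ := Metric.dense_iff.1 hD x (ε / (2 * (C + 1))) (by positivity)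
  rw [Metric.mem_ball, dist_eq_norm] at hy
  obtain ⟨N, hN⟩ := (Metric.tendsto_atTop.1 (h y hyx)) (ε / 2) (by positivity)
  refine ⟨N, fun n hn => ?_⟩
  have h1 := hN n hn
  rw [dist_eq_norm] at h1 ⊢
  have e : A n x - x = (A n y - y) - (A n (y - x) - (y - x)) := by
    rw [map_sub]; abel
  have h2 : ‖A n (y - x)‖ ≤ C * ‖y - x‖ := (A n).le_of_opNorm_le (hC n) _
  have h3 : (C + 1) * ‖y - x‖ < ε / 2 := by
    have : (C + 1) * ‖y - x‖ < (C + 1) * (ε / (2 * (C + 1))) := by gcongr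
    have e2 : (C + 1) * (ε / (2 * (C + 1))) = ε / 2 := by
      have : C + 1 ≠ 0 := by positivity
      field_simp
    linarith
  rw [e]
  calc _ ≤ ‖A n y - y‖ + ‖A n (y - x) - (y - x)‖ := norm_sub_le _ _
    _ ≤ ‖A n y - y‖ + (‖A n (y - x)‖ + ‖y - x‖) := by gcongr; exact norm_sub_le _ _
    _ < ε := by linarith

/-- Finite-rank operators `T n` with `T n ∘ T m = T m` for `m < n` which converge strongly to the
identity. -/
lemma exists_seq_T [TopologicalSpace.SeparableSpace X] (h : HasMAP 𝕜 X) :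
    ∃ T : ℕ → X →L[𝕜] X, (∀ n, FR (T n)) ∧ (∀ n, ‖T n‖ ≤ 1 + (1 / 2) ^ n) ∧
      (∀ m n, m < n → ∀ x, T n (T m x) = T m x) ∧ ∀ x, Tendsto (fun n => T n x) atTop (𝓝 x) := by
  classical
  let d := TopologicalSpace.denseSeq X
  obtain ⟨f, hP, hr⟩ := exists_seq_of_forall_finset_exists
    (fun a : ℕ × (X →L[𝕜] X) => FR a.2 ∧ ‖a.2‖ ≤ 1 + (1 / 2) ^ a.1 ∧ ∀ k < a.1, a.2 (d k) = d k)
    (fun a b => a.1 < b.1 ∧ ∀ x, b.2 (a.2 x) = a.2 x) (by
      intro s hs
      let n : ℕ := s.sup (fun a => a.1) + 1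
      let F : Submodule 𝕜 X := (s.attach.sup fun a => LinearMap.range (a.1.2 : X →ₗ[𝕜] X)) ⊔
        Submodule.span 𝕜 (d '' (Finset.range n : Set ℕ))
      have h1 : FiniteDimensional 𝕜
          (Submodule.span 𝕜 (d '' (Finset.range n : Set ℕ))) :=
        FiniteDimensional.span_of_finite 𝕜 ((Finset.finite_toSet _).image d)
      have h2 : FiniteDimensional 𝕜
          ((s.attach.sup fun a => LinearMap.range (a.1.2 : X →ₗ[𝕜] X)) : Submodule 𝕜 X) := by
        have : ∀ a : s, FiniteDimensional 𝕜 (LinearMap.range (a.1.2 : X →ₗ[𝕜] X)) :=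
          fun a => (hs a.1 a.2).1
        exact Submodule.finiteDimensional_finset_sup s.attach _
      have h3 : FiniteDimensional 𝕜 F := Submodule.finiteDimensional_sup _ _
      obtain ⟨T, hT1, hT2, hT3⟩ := exists_id_on h F ((1 / 2) ^ n) (by positivity)
      refine ⟨(n, T), ⟨hT1, hT2, fun k hk => hT3 _ ?_⟩, fun a ha => ⟨?_, fun x => hT3 _ ?_⟩⟩
      · refine Submodule.mem_sup_right (Submodule.subset_span ⟨k, ?_, rfl⟩)
        exact Finset.mem_coe.2 (Finset.mem_range.2 hk)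
      · exact Nat.lt_succ_of_le (Finset.le_sup (f := fun a : ℕ × (X →L[𝕜] X) => a.1) ha)
      · refine Submodule.mem_sup_left ?_
        exact (Finset.le_sup (f := fun a : s => LinearMap.range (a.1.2 : X →ₗ[𝕜] X))
          (Finset.mem_attach s ⟨a, ha⟩)) ⟨x, rfl⟩)
  have hmono : StrictMono (fun n => (f n).1) := strictMono_nat_of_lt_succ fun n =>
    (hr n (n + 1) (Nat.lt_succ_self n)).1
  have hge : ∀ n, n ≤ (f n).1 := fun n => hmono.id_le n
  have hT2 : ∀ n, ‖(f n).2‖ ≤ 1 + (1 / 2 : ℝ) ^ n := fun n => by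
    refine (hP n).2.1.trans ?_
    have : (1 / 2 : ℝ) ^ (f n).1 ≤ (1 / 2) ^ n :=
      pow_le_pow_of_le_one (by norm_num) (by norm_num) (hge n)
    linarith
  refine ⟨fun n => (f n).2, fun n => (hP n).1, hT2, fun m n hmn => (hr m n hmn).2, ?_⟩
  refine tendsto_of_dense _ 2 (fun n => ?_) (Set.range d) (TopologicalSpace.denseRange_denseSeq X) ?_
  · have : (1 / 2 : ℝ) ^ n ≤ 1 := pow_le_one₀ (by norm_num) (by norm_num)
    linarith [hT2 n]
  · rintro _ ⟨k, rfl⟩
    refine tendsto_const_nhds.congr' ?_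
    filter_upwards [eventually_gt_atTop k] with n hn
    exact ((hP n).2.2 k (hn.trans_le (hge n))).symm

section exp

lemma exp_hasSum [CompleteSpace X] (B : X →L[𝕜] X) (x : X) :
    HasSum (fun n : ℕ => ((n.factorial : 𝕜)⁻¹) • (B ^ n) x) (exp B x) := by
  have h := exp_series_hasSum_exp' (𝕂 := 𝕜) B
  have h2 := (ContinuousLinearMap.apply 𝕜 X x).hasSum h
  exact h2

lemma pow_apply_mem (A A' : X →L[𝕜] X) (R : Submodule 𝕜 X) (h : ∀ y ∈ R, A y = A' y)
    (hR : ∀ y ∈ R, A y ∈ R) (x : X) (hx : x ∈ R) (n : ℕ) : (A ^ n) x = (A' ^ n) x ∧ (A ^ n) x ∈ R := by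
  induction n with
  | zero => simpa using hx
  | succ n ih =>
    rw [pow_succ', pow_succ']
    refine ⟨?_, hR _ ih.2⟩
    show A ((A ^ n) x) = A' ((A' ^ n) x)
    rw [h _ ih.2, ih.1]

lemma exp_congr [CompleteSpace X] (A A' : X →L[𝕜] X) (R : Submodule 𝕜 X)
    (h : ∀ y ∈ R, A y = A' y) (hR : ∀ y ∈ R, A y ∈ R) (x : X) (hx : x ∈ R) :
    exp A x = exp A' x := by
  have h1 := exp_hasSum A x
  have h2 := exp_hasSum A' x
  have e : (fun n : ℕ => ((n.factorial : 𝕜)⁻¹) • (A ^ n) x) =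
      fun n : ℕ => ((n.factorial : 𝕜)⁻¹) • (A' ^ n) x := by
    funext n
    rw [(pow_apply_mem A A' R h hR x hx n).1]
  rw [e] at h1
  exact h1.unique h2

lemma exp_seminorm [CompleteSpace X] (B : X →L[𝕜] X) (p : Seminorm 𝕜 X) (hp : Continuous p)
    (c : ℝ) (hc : 0 ≤ c) (h : ∀ x, p (B x) ≤ c * p x) (x : X) :
    p (exp B x) ≤ Real.exp c * p x := by
  have h1 := (exp_hasSum B x).tendsto_sum_nat
  have h2 := (hp.tendsto _).comp h1
  have hpow : ∀ n, p ((B ^ n) x) ≤ c ^ n * p x := by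
    intro n
    induction n with
    | zero => simp
    | succ n ih =>
      have e : (B ^ (n + 1)) x = B ((B ^ n) x) := by rw [pow_succ']; rfl
      rw [e]
      refine (h _).trans ?_
      rw [pow_succ', mul_assoc]
      exact mul_le_mul_of_nonneg_left ih hc
  refine le_of_tendsto h2 (Eventually.of_forall fun n => ?_)
  have h3 : p (∑ i ∈ Finset.range n, ((i.factorial : 𝕜)⁻¹) • (B ^ i) x) ≤
      ∑ i ∈ Finset.range n, p (((i.factorial : 𝕜)⁻¹) • (B ^ i) x) := 
    Finset.le_sum_of_subadditive p (map_zero p).le (fun x y => map_add_le_add p x y) _ _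
  refine h3.trans ?_
  calc _ ≤ ∑ i ∈ Finset.range n, (c ^ i / i.factorial) * p x := by
        refine Finset.sum_le_sum fun i _ => ?_
        rw [map_smul_eq_mul, norm_inv, RCLike.norm_natCast, div_mul_eq_mul_div, div_eq_inv_mul]
        exact mul_le_mul_of_nonneg_left (hpow i) (by positivity)
    _ = (∑ i ∈ Finset.range n, c ^ i / i.factorial) * p x := by rw [Finset.sum_mul]
    _ ≤ _ := mul_le_mul_of_nonneg_right (Real.sum_le_exp_of_nonneg hc n) (apply_nonneg _ _)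

lemma exp_sub_smul [CompleteSpace X] (B : X →L[𝕜] X) (c : ℝ) :
    exp (B - ((c : ℝ) : 𝕜) • (1 : X →L[𝕜] X)) = ((Real.exp (-c) : ℝ) : 𝕜) • exp B := by
  have e : B - ((c : ℝ) : 𝕜) • (1 : X →L[𝕜] X) =
      algebraMap 𝕜 (X →L[𝕜] X) (((-c : ℝ)) : 𝕜) + B := by
    rw [Algebra.algebraMap_eq_smul_one, RCLike.ofReal_neg, neg_smul]
    abel
  let _ : NormedAlgebra ℚ (X →L[𝕜] X) := NormedAlgebra.restrictScalars ℚ 𝕜 (X →L[𝕜] X)
  rw [e, exp_add_of_commute (Algebra.commutes _ _), ← algebraMap_exp_comm]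
  have h2 : exp (((-c : ℝ)) : 𝕜) = ((Real.exp (-c) : ℝ) : 𝕜) := by
    have := algebraMap_exp_comm (𝕂 := ℝ) (𝔸 := 𝕜) (-c)
    rw [Real.exp_eq_exp_ℝ]
    exact this.symm
  rw [h2, Algebra.algebraMap_eq_smul_one, smul_mul_assoc, one_mul]

end exp

end

end Pool.Agent.KS6_80.PB
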