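import Pool.Agent.KS6_80.PB.A

/-!
Commuting approximations of the identity in a separable Banach space with the metric
approximation property: the semigroup.
-/

set_option autoImplicit false

namespace Pool.Agent.KS6_80.PB

open Filter Topology NormedSpace

noncomputable section

variable {𝕜 : Type*} [RCLike 𝕜] {X : Type*} [NormedAddCommGroup X] [NormedSpace 𝕜 X]

/-- Bounded operators which converge strongly on a dense set converge strongly. -/
lemma exists_limit [CompleteSpace X] (A : ℕ → X →L[𝕜] X) (C : ℝ) (hC : ∀ n, ‖A n‖ ≤ C) (D : Set X)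
    (hD : Dense D) (h : ∀ x ∈ D, ∃ y, Tendsto (fun n => A n x) atTop (𝓝 y)) :
    ∃ L : X →L[𝕜] X, ∀ x, Tendsto (fun n => A n x) atTop (𝓝 (L x)) := by
  have hC0 : 0 ≤ C := (norm_nonneg _).trans (hC 0)
  have hcau : ∀ x, CauchySeq fun n => A n x := by
    intro x
    rw [Metric.cauchySeq_iff']
    intro ε hε
    obtain ⟨y, hy, hyx⟩ := Metric.dense_iff.1 hD x (ε / (4 * (C + 1))) (by positivity)
    rw [Metric.mem_ball, dist_eq_norm] at hy
    obtain ⟨z, hz⟩ := h y hyx
    obtain ⟨N, hN⟩ := (Metric.cauchySeq_iff'.1 hz.cauchySeq) (ε / 2) (by positivity)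
    refine ⟨N, fun n hn => ?_⟩
    have h1 := hN n hn
    rw [dist_eq_norm] at h1 ⊢
    have e : A n x - A N x = (A n y - A N y) - (A n (y - x) - A N (y - x)) := by
      rw [map_sub, map_sub]; abel
    have h2 : ‖A n (y - x)‖ ≤ C * ‖y - x‖ := (A n).le_of_opNorm_le (hC n) _
    have h2' : ‖A N (y - x)‖ ≤ C * ‖y - x‖ := (A N).le_of_opNorm_le (hC N) _
    have h3 : (C + 1) * ‖y - x‖ < ε / 4 := by
      have : (C + 1) * ‖y - x‖ < (C + 1) * (ε / (4 * (C + 1))) := by gcongr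
      have e2 : (C + 1) * (ε / (4 * (C + 1))) = ε / 4 := by
        have : C + 1 ≠ 0 := by positivity
        field_simp
      linarith
    rw [e]
    calc _ ≤ ‖A n y - A N y‖ + ‖A n (y - x) - A N (y - x)‖ := norm_sub_le _ _
      _ ≤ ‖A n y - A N y‖ + (‖A n (y - x)‖ + ‖A N (y - x)‖) := by gcongr; exact norm_sub_le _ _
      _ < ε := by nlinarith [norm_nonneg (y - x)]
  choose f hf using fun x => cauchySeq_tendsto_of_complete (hcau x)
  exact ⟨continuousLinearMapOfTendsto A (tendsto_pi_nhds.2 hf), hf⟩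

/-- Products of bounded strongly convergent sequences. -/
lemma tendsto_comp_ops (A B : ℕ → X →L[𝕜] X) (C : ℝ) (hC : ∀ n, ‖A n‖ ≤ C) (a b : X →L[𝕜] X)
    (ha : ∀ x, Tendsto (fun n => A n x) atTop (𝓝 (a x)))
    (hb : ∀ x, Tendsto (fun n => B n x) atTop (𝓝 (b x))) (x : X) :
    Tendsto (fun n => A n (B n x)) atTop (𝓝 (a (b x))) := by
  have hC0 : 0 ≤ C := (norm_nonneg _).trans (hC 0)
  have h1 : Tendsto (fun n => A n (B n x - b x)) atTop (𝓝 0) := by
    rw [tendsto_zero_iff_norm_tendsto_zero]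
    have h2 : Tendsto (fun n => C * ‖B n x - b x‖) atTop (𝓝 (C * 0)) := by
      refine Tendsto.const_mul C ?_
      have := (hb x).sub_const (b x)
      rw [sub_self] at this
      simpa using this.norm
    rw [mul_zero] at h2
    exact squeeze_zero (fun n => norm_nonneg _) (fun n => (A n).le_of_opNorm_le (hC n) _) h2
  have h3 := h1.add (ha (b x))
  rw [zero_add] at h3
  refine h3.congr fun n => ?_
  rw [map_sub]
  abel

section semi

variable (T : ℕ → X →L[𝕜] X)

/-- The span of the first ranges. -/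
def RR (n : ℕ) : Submodule 𝕜 X :=
  (Finset.range n).sup fun k => LinearMap.range (T k : X →ₗ[𝕜] X)

lemma RR_mem {n k : ℕ} (h : k < n) (x : X) : T k x ∈ RR T n :=
  (Finset.le_sup (f := fun k => LinearMap.range (T k : X →ₗ[𝕜] X)) (Finset.mem_range.2 h)) ⟨x, rfl⟩

lemma RR_fin (hfin : ∀ n, FR (T n)) (n : ℕ) : FiniteDimensional 𝕜 (RR T n) := by
  have : ∀ k, FiniteDimensional 𝕜 (LinearMap.range (T k : X →ₗ[𝕜] X)) := hfin
  exact Submodule.finiteDimensional_finset_sup _ _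

variable (hT : ∀ m n, m < n → ∀ x, T n (T m x) = T m x)

include hT in
lemma RR_fix {n k : ℕ} (h : n ≤ k) (y : X) (hy : y ∈ RR T n) : T k y = y := by
  have h1 : RR T n ≤ LinearMap.ker ((T k : X →ₗ[𝕜] X) - LinearMap.id) := by
    refine Finset.sup_le fun m hm => ?_
    rintro _ ⟨x, rfl⟩
    rw [LinearMap.mem_ker, LinearMap.sub_apply, LinearMap.id_apply, sub_eq_zero]
    exact hT m k ((Finset.mem_range.1 hm).trans_le h) x
  have h2 := h1 hy
  rwa [LinearMap.mem_ker, LinearMap.sub_apply, LinearMap.id_apply, sub_eq_zero] at h2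

/-- The sum of the first operators. -/
def BB (N : ℕ) : X →L[𝕜] X := ∑ k ∈ Finset.range N, T k

lemma BB_apply (N : ℕ) (x : X) : BB T N x = ∑ k ∈ Finset.range N, T k x := by
  rw [BB, sum_apply]

include hT in
lemma BB_fix {n N : ℕ} (h : n ≤ N) (y : X) (hy : y ∈ RR T n) :
    BB T N y = BB T n y + ((N : 𝕜) - (n : 𝕜)) • y := by
  induction N, h using Nat.le_induction with
  | base => rw [sub_self, zero_smul, add_zero]
  | succ N hN ih =>
    rw [BB_apply, Finset.sum_range_succ, ← BB_apply, ih, RR_fix T hT hN y hy]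
    push_cast
    rw [add_assoc]
    congr 1
    rw [show ((N : 𝕜) + 1 - (n : 𝕜)) = ((N : 𝕜) - (n : 𝕜)) + 1 by ring, add_smul, one_smul]

lemma BB_mem (n : ℕ) (x : X) : BB T n x ∈ RR T n := by
  rw [BB_apply]
  exact Submodule.sum_mem _ fun k hk => RR_mem T (Finset.mem_range.1 hk) x

/-- The approximating semigroups. -/
def VN (N : ℕ) (t : ℝ) : X →L[𝕜] X :=
  exp (((t : ℝ) : 𝕜) • BB T N - (((t * N : ℝ)) : 𝕜) • (1 : X →L[𝕜] X))

lemma VN_gen_apply (N : ℕ) (t : ℝ) (x : X) :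
    (((t : ℝ) : 𝕜) • BB T N - (((t * N : ℝ)) : 𝕜) • (1 : X →L[𝕜] X)) x =
      ((t : ℝ) : 𝕜) • (BB T N x - (N : 𝕜) • x) := by
  rw [sub_apply, smul_apply, smul_apply, one_apply_eq_self, smul_sub, smul_smul]
  push_cast
  rfl

include hT in
lemma VN_fix [CompleteSpace X] {n N : ℕ} (h : n ≤ N) (t : ℝ) (y : X) (hy : y ∈ RR T n) :
    VN T N t y = VN T n t y := by
  refine exp_congr _ _ (RR T n) (fun z hz => ?_) (fun z hz => ?_) y hy
  · rw [VN_gen_apply, VN_gen_apply, BB_fix T hT h z hz, sub_smul]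
    congr 1
    abel
  · rw [VN_gen_apply, BB_fix T hT h z hz]
    refine Submodule.smul_mem _ _ (Submodule.sub_mem _ (Submodule.add_mem _ (BB_mem T n z)
      (Submodule.smul_mem _ _ hz)) (Submodule.smul_mem _ _ hz))

lemma VN_eq [CompleteSpace X] (N : ℕ) (t : ℝ) :
    VN T N t = ((Real.exp (-(t * N)) : ℝ) : 𝕜) • exp (((t : ℝ) : 𝕜) • BB T N) := exp_sub_smul _ _

lemma VN_comm [CompleteSpace X] (N : ℕ) (s t : ℝ) (x : X) :
    VN T N s (VN T N t x) = VN T N t (VN T N s x) := by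
  have h1 : Commute (((s : ℝ) : 𝕜) • BB T N) (((t : ℝ) : 𝕜) • BB T N) :=
    ((Commute.refl (BB T N)).smul_left _).smul_right _
  have h : Commute (exp (((s : ℝ) : 𝕜) • BB T N)) (exp (((t : ℝ) : 𝕜) • BB T N)) := h1.exp
  have h2 := (h.smul_left ((Real.exp (-(s * N)) : ℝ) : 𝕜)).smul_right
    ((Real.exp (-(t * N)) : ℝ) : 𝕜)
  rw [← VN_eq, ← VN_eq] at h2
  exact congrArg (fun A : X →L[𝕜] X => A x) h2.eq

variable (hn : ∀ n, ‖T n‖ ≤ 1 + (1 / 2) ^ n)

lemma sum_half (n N : ℕ) : ∑ k ∈ Finset.Ico n N, (1 + (1 / 2 : ℝ) ^ k) ≤ ((N : ℝ) - n) + 2 ∨ N < n := by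
  by_cases h : N < n
  · exact Or.inr h
  left
  push Not at h
  rw [Finset.sum_add_distrib, Finset.sum_const, Nat.card_Ico, nsmul_eq_mul, mul_one,
    Nat.cast_sub h]
  have h1 : ∑ k ∈ Finset.Ico n N, (1 / 2 : ℝ) ^ k ≤ ∑ k ∈ Finset.range N, (1 / 2 : ℝ) ^ k := by
    refine Finset.sum_le_sum_of_subset_of_nonneg ?_ fun i _ _ => by positivity
    intro i hi
    rw [Finset.mem_Ico] at hi
    exact Finset.mem_range.2 hi.2
  have h2 : ∑ k ∈ Finset.range N, (1 / 2 : ℝ) ^ k ≤ 2 := by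
    have h3 := summable_geometric_two.sum_le_tsum (Finset.range N) (fun i _ => by positivity)
    rwa [tsum_geometric_two] at h3
  linarith

include hT hn in
/-- Norms in the quotient by the span of the first ranges. -/
lemma quot_le {n N : ℕ} (h : n ≤ N) (t : ℝ) (ht : 0 ≤ t) [CompleteSpace X] (x : X) :
    ‖(Submodule.Quotient.mk (VN T N t x) : X ⧸ RR T n)‖ ≤
      Real.exp (t * (2 - n)) * ‖(Submodule.Quotient.mk x : X ⧸ RR T n)‖ := by
  let p : Seminorm 𝕜 X := (normSeminorm 𝕜 (X ⧸ RR T n)).comp (RR T n).mkQ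
  have hp : ∀ x, p x = ‖(Submodule.Quotient.mk x : X ⧸ RR T n)‖ := fun x => rfl
  have hpc : Continuous p := by
    have h1 : ∀ x, p x ≤ 1 * ‖x‖ := fun x => by
      rw [one_mul]
      exact Submodule.Quotient.norm_mk_le _ _
    exact Seminorm.continuous_of_le (p := p) (q := normSeminorm 𝕜 X) (norm_withSeminorms 𝕜 X |>.continuous_seminorm 0) (fun x => by
      have := h1 x
      rw [one_mul] at this
      exact this)
  have hk : ∀ k, n ≤ k → ∀ x, p (T k x) ≤ (1 + (1 / 2) ^ k) * p x := by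
    intro k hk x
    refine le_of_forall_pos_le_add fun ε hε => ?_
    have hpos : (0 : ℝ) < 1 + (1 / 2) ^ k := by positivity
    obtain ⟨m, hm, hmn⟩ := Submodule.Quotient.norm_mk_lt (S := RR T n)
      (Submodule.Quotient.mk x) (ε := ε / (1 + (1 / 2) ^ k)) (by positivity)
    have h1 : (Submodule.Quotient.mk (T k m) : X ⧸ RR T n) = Submodule.Quotient.mk (T k x) := by
      rw [Submodule.Quotient.eq, ← map_sub]
      have h2 := (Submodule.Quotient.eq (RR T n)).1 hm
      rw [RR_fix T hT hk _ h2]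
      exact h2
    rw [hp, hp, ← h1]
    refine (Submodule.Quotient.norm_mk_le _ _).trans ?_
    refine ((T k).le_of_opNorm_le (hn k) m).trans ?_
    have h3 : (1 + (1 / 2) ^ k) * ‖m‖ ≤ (1 + (1 / 2) ^ k) *
        (‖(Submodule.Quotient.mk x : X ⧸ RR T n)‖ + ε / (1 + (1 / 2) ^ k)) := by gcongr
    refine h3.trans (le_of_eq ?_)
    field_simp
  have hk0 : ∀ k, k < n → ∀ x, p (T k x) = 0 := by
    intro k hk x
    rw [hp, (Submodule.Quotient.mk_eq_zero _).2 (RR_mem T hk x), norm_zero]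
  have hB : ∀ x, p (BB T N x) ≤ ((N : ℝ) - n + 2) * p x := by
    intro x
    rw [BB_apply]
    calc p (∑ k ∈ Finset.range N, T k x) ≤ ∑ k ∈ Finset.range N, p (T k x) :=
          Finset.le_sum_of_subadditive p (map_zero p).le (fun x y => map_add_le_add p x y) _ _
      _ = ∑ k ∈ Finset.Ico n N, p (T k x) := by
          rw [Finset.range_eq_Ico, ← Finset.sum_Ico_consecutive _ (Nat.zero_le n) h,
            Finset.sum_eq_zero (s := Finset.Ico 0 n), zero_add]
          intro k hk'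
          exact hk0 k (Finset.mem_Ico.1 hk').2 x
      _ ≤ ∑ k ∈ Finset.Ico n N, (1 + (1 / 2) ^ k) * p x :=
          Finset.sum_le_sum fun k hk' => hk k (Finset.mem_Ico.1 hk').1 x
      _ = (∑ k ∈ Finset.Ico n N, (1 + (1 / 2) ^ k)) * p x := by rw [Finset.sum_mul]
      _ ≤ _ := by
          refine mul_le_mul_of_nonneg_right ?_ (apply_nonneg _ _)
          rcases sum_half n N with h1 | h1
          · exact h1
          · omega
  have hc : (0 : ℝ) ≤ t * ((N : ℝ) - n + 2) := by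
    have : (n : ℝ) ≤ N := by exact_mod_cast h
    have : (0 : ℝ) ≤ (N : ℝ) - n + 2 := by linarith
    positivity
  have h1 := exp_seminorm (((t : ℝ) : 𝕜) • BB T N) p hpc (t * ((N : ℝ) - n + 2)) hc (fun x => by
    rw [smul_apply, map_smul_eq_mul, RCLike.norm_ofReal, abs_of_nonneg ht, mul_assoc]
    exact mul_le_mul_of_nonneg_left (hB x) ht) x
  rw [← hp, ← hp, VN_eq, smul_apply, map_smul_eq_mul, RCLike.norm_ofReal,
    abs_of_pos (Real.exp_pos _)]
  calc _ ≤ Real.exp (-(t * N)) * (Real.exp (t * ((N : ℝ) - n + 2)) * p x) := by gcongr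
    _ = _ := by
      rw [← mul_assoc, ← Real.exp_add]
      congr 2
      ring

include hn in
lemma VN_norm [CompleteSpace X] (N : ℕ) (t : ℝ) (ht : 0 ≤ t) : ‖VN T N t‖ ≤ Real.exp (2 * t) := by
  refine ContinuousLinearMap.opNorm_le_bound _ (Real.exp_pos _).le fun x => ?_
  have h1 : ∀ x, ‖BB T N x‖ ≤ ((N : ℝ) + 2) * ‖x‖ := by
    intro x
    rw [BB_apply]
    calc ‖∑ k ∈ Finset.range N, T k x‖ ≤ ∑ k ∈ Finset.range N, ‖T k x‖ := norm_sum_le _ _
      _ ≤ ∑ k ∈ Finset.range N, (1 + (1 / 2) ^ k) * ‖x‖ :=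
          Finset.sum_le_sum fun k _ => (T k).le_of_opNorm_le (hn k) x
      _ = (∑ k ∈ Finset.range N, (1 + (1 / 2) ^ k)) * ‖x‖ := by rw [Finset.sum_mul]
      _ ≤ _ := by
          refine mul_le_mul_of_nonneg_right ?_ (norm_nonneg _)
          rcases sum_half 0 N with h1 | h1
          · rw [← Finset.range_eq_Ico] at h1
            push_cast at h1
            linarith
          · omega
  have hc : (0 : ℝ) ≤ t * ((N : ℝ) + 2) := by positivity
  have h2 := exp_seminorm (((t : ℝ) : 𝕜) • BB T N) (normSeminorm 𝕜 X)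
    (norm_withSeminorms 𝕜 X |>.continuous_seminorm 0) (t * ((N : ℝ) + 2)) hc (fun x => by
    rw [smul_apply, map_smul_eq_mul, RCLike.norm_ofReal, abs_of_nonneg ht, mul_assoc]
    exact mul_le_mul_of_nonneg_left (h1 x) ht) x
  rw [VN_eq, smul_apply, norm_smul, RCLike.norm_ofReal, abs_of_pos (Real.exp_pos _)]
  have h3 : ‖(exp (((t : ℝ) : 𝕜) • BB T N)) x‖ ≤ Real.exp (t * ((N : ℝ) + 2)) * ‖x‖ := h2
  calc _ ≤ Real.exp (-(t * N)) * (Real.exp (t * ((N : ℝ) + 2)) * ‖x‖) := by gcongr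
    _ = _ := by
      rw [← mul_assoc, ← Real.exp_add]
      congr 2
      ring

end semi

end

end Pool.Agent.KS6_80.PB
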