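import Pool.Agent.KS6_80.PB.A2

/-!
Commuting approximations of the identity in a separable Banach space with the metric
approximation property: conclusion.
-/

set_option autoImplicit false

namespace Pool.Agent.KS6_80.PB

open Filter Topology NormedSpace

noncomputable section

variable {𝕜 : Type*} [RCLike 𝕜] {X : Type*} [NormedAddCommGroup X] [NormedSpace 𝕜 X]

/-- Norm limits of finite-rank operators. -/
def Apx (A : X →L[𝕜] X) : Prop := ∀ ε : ℝ, 0 < ε → ∃ S : X →L[𝕜] X, FR S ∧ ‖A - S‖ ≤ ε

lemma Apx.smul {A : X →L[𝕜] X} (h : Apx A) (a : 𝕜) : Apx (a • A) := by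
  intro ε hε
  obtain ⟨S, hS, hSn⟩ := h (ε / (‖a‖ + 1)) (by positivity)
  have hS' : FiniteDimensional 𝕜 (LinearMap.range (S : X →ₗ[𝕜] X)) := hS
  refine ⟨a • S, FR.of_le (LinearMap.range (S : X →ₗ[𝕜] X)) fun x =>
    Submodule.smul_mem _ _ ⟨x, rfl⟩, ?_⟩
  rw [← smul_sub, norm_smul]
  have h1 : ‖a‖ * ‖A - S‖ ≤ (‖a‖ + 1) * (ε / (‖a‖ + 1)) :=
    mul_le_mul (by linarith) hSn (norm_nonneg _) (by positivity)
  refine h1.trans (le_of_eq ?_)
  have : ‖a‖ + 1 ≠ 0 := by positivity
  field_simp

/-- A separable Banach space with the metric approximation property has commuting contractions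
which are norm limits of finite-rank operators and converge strongly to the identity
(Casazza and Kalton). -/
theorem exists_cap [CompleteSpace X] [TopologicalSpace.SeparableSpace X] (h : HasMAP 𝕜 X) :
    ∃ V : ℕ → X →L[𝕜] X, (∀ n, ‖V n‖ ≤ 1) ∧ (∀ m n x, V m (V n x) = V n (V m x)) ∧
      (∀ n, Apx (V n)) ∧ ∀ x, Tendsto (fun n => V n x) atTop (𝓝 x) := by
  obtain ⟨T, hfin, hn, hT, hlim⟩ := exists_seq_T h
  have hD : Dense {x | ∃ n, x ∈ RR T n} := by
    intro x
    refine mem_closure_of_tendsto (hlim x) (Eventually.of_forall fun n => ?_)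
    exact ⟨n + 1, RR_mem T (Nat.lt_succ_self n) x⟩
  have hL : ∀ t : ℝ, 0 ≤ t → ∃ L : X →L[𝕜] X, ∀ x, Tendsto (fun N => VN T N t x) atTop (𝓝 (L x)) := by
    intro t ht
    refine exists_limit (fun N => VN T N t) (Real.exp (2 * t)) (fun N => VN_norm T hn N t ht) _ hD ?_
    rintro x ⟨n, hx⟩
    refine ⟨VN T n t x, tendsto_const_nhds.congr' ?_⟩
    filter_upwards [eventually_ge_atTop n] with N hN
    exact (VN_fix T hT hN t x hx).symm
  let t : ℕ → ℝ := fun n => 1 / ((n : ℝ) + 1)
  have ht0 : ∀ n, 0 < t n := fun n => by positivity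
  have htlim : Tendsto t atTop (𝓝 0) := tendsto_one_div_add_atTop_nhds_zero_nat
  choose L hLx using fun n => hL (t n) (ht0 n).le
  have hLn : ∀ n x, ‖L n x‖ ≤ Real.exp (2 * t n) * ‖x‖ := fun n x =>
    le_of_tendsto (hLx n x).norm (Eventually.of_forall fun N =>
      (VN T N (t n)).le_of_opNorm_le (VN_norm T hn N (t n) (ht0 n).le) x)
  have hLc : ∀ m n x, L m (L n x) = L n (L m x) := by
    intro m n x
    have h1 := tendsto_comp_ops (fun N => VN T N (t m)) (fun N => VN T N (t n)) _
      (fun N => VN_norm T hn N (t m) (ht0 m).le) (L m) (L n) (hLx m) (hLx n) x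
    have h2 := tendsto_comp_ops (fun N => VN T N (t n)) (fun N => VN T N (t m)) _
      (fun N => VN_norm T hn N (t n) (ht0 n).le) (L n) (L m) (hLx n) (hLx m) x
    refine tendsto_nhds_unique h1 (h2.congr fun N => ?_)
    exact VN_comm T N _ _ x
  have hLa : ∀ n, Apx (L n) := by
    intro n ε hε
    have h1 : Tendsto (fun k : ℕ => 3 * Real.exp (t n * (2 - k))) atTop (𝓝 (3 * 0)) := by
      refine Tendsto.const_mul 3 (Real.tendsto_exp_atBot.comp ?_)
      refine Tendsto.const_mul_atBot (ht0 n) ?_
      have := tendsto_natCast_atTop_atTop (R := ℝ)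
      exact tendsto_atBot_add_const_left _ 2 (tendsto_neg_atTop_atBot.comp this) |>.congr
        fun k => by
          simp only [Function.comp]
          ring
    rw [mul_zero] at h1
    obtain ⟨k, hk⟩ := (h1.eventually (gt_mem_nhds hε)).exists
    have hfink : FiniteDimensional 𝕜 (LinearMap.range (T k : X →ₗ[𝕜] X)) := hfin k
    refine ⟨T k ∘L L n, FR.of_le (LinearMap.range (T k : X →ₗ[𝕜] X)) fun x => ⟨L n x, rfl⟩, ?_⟩
    refine ContinuousLinearMap.opNorm_le_bound _ hε.le fun x => ?_
    have h2 : ‖(Submodule.Quotient.mk (L n x) : X ⧸ RR T k)‖ ≤ Real.exp (t n * (2 - k)) * ‖x‖ := by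
      have hc : Continuous fun z : X => ‖(Submodule.Quotient.mk z : X ⧸ RR T k)‖ :=
        continuous_norm.comp continuous_quot_mk
      have h3 := (hc.tendsto _).comp (hLx n x)
      refine le_of_tendsto h3 ?_
      filter_upwards [eventually_ge_atTop k] with N hN
      refine (quot_le T hT hn hN (t n) (ht0 n).le x).trans ?_
      have := Submodule.Quotient.norm_mk_le (RR T k) x
      gcongr
    have h4 : ‖L n x - T k (L n x)‖ ≤ 3 * ‖(Submodule.Quotient.mk (L n x) : X ⧸ RR T k)‖ := by
      refine le_of_forall_pos_le_add fun δ hδ => ?_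
      obtain ⟨m, hm, hmn⟩ := Submodule.Quotient.norm_mk_lt (S := RR T k)
        (Submodule.Quotient.mk (L n x)) (ε := δ / 3) (by positivity)
      have h5 := (Submodule.Quotient.eq (RR T k)).1 hm
      have h6 := RR_fix T hT le_rfl _ h5
      have e : L n x - T k (L n x) = m - T k m := by
        rw [map_sub] at h6
        have : T k m = m - L n x + T k (L n x) := by rw [← h6]; abel
        rw [this]
        abel
      have h7 : ‖T k m‖ ≤ 2 * ‖m‖ := by
        refine (T k).le_of_opNorm_le ((hn k).trans ?_) m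
        have : (1 / 2 : ℝ) ^ k ≤ 1 := pow_le_one₀ (by norm_num) (by norm_num)
        linarith
      rw [e]
      calc _ ≤ ‖m‖ + ‖T k m‖ := norm_sub_le _ _
        _ ≤ _ := by linarith
    show ‖L n x - T k (L n x)‖ ≤ ε * ‖x‖
    have h8 := norm_nonneg x
    nlinarith
  have hLf : ∀ k, ∀ x ∈ RR T k, ∀ n, L n x = VN T k (t n) x := by
    intro k x hx n
    refine tendsto_nhds_unique (hLx n x) (tendsto_const_nhds.congr' ?_)
    filter_upwards [eventually_ge_atTop k] with N hN
    exact (VN_fix T hT hN (t n) x hx).symm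
  refine ⟨fun n => ((Real.exp (-(2 * t n)) : ℝ) : 𝕜) • L n, fun n => ?_, fun m n x => ?_,
    fun n => (hLa n).smul _, ?_⟩
  · refine ContinuousLinearMap.opNorm_le_bound _ zero_le_one fun x => ?_
    rw [smul_apply, norm_smul, RCLike.norm_ofReal, abs_of_pos (Real.exp_pos _)]
    have h1 := hLn n x
    calc _ ≤ Real.exp (-(2 * t n)) * (Real.exp (2 * t n) * ‖x‖) := by gcongr
      _ = _ := by rw [← mul_assoc, ← Real.exp_add, neg_add_cancel, Real.exp_zero]
  · simp only [smul_apply, map_smul]
    rw [hLc m n x, smul_comm]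
  · refine tendsto_of_dense _ 1 (fun n => ?_) _ hD ?_
    · refine ContinuousLinearMap.opNorm_le_bound _ zero_le_one fun x => ?_
      rw [smul_apply, norm_smul, RCLike.norm_ofReal, abs_of_pos (Real.exp_pos _)]
      have h1 := hLn n x
      calc _ ≤ Real.exp (-(2 * t n)) * (Real.exp (2 * t n) * ‖x‖) := by gcongr
        _ = _ := by rw [← mul_assoc, ← Real.exp_add, neg_add_cancel, Real.exp_zero]
    · rintro x ⟨k, hx⟩
      have h1 : Tendsto (fun n => ((Real.exp (-(2 * t n)) : ℝ) : 𝕜)) atTop (𝓝 ((1 : ℝ) : 𝕜)) := by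
        refine (RCLike.continuous_ofReal.tendsto 1).comp ?_
        have h2 : Tendsto (fun n => -(2 * t n)) atTop (𝓝 0) := by
          have := (htlim.const_mul 2).neg
          simpa using this
        have := (Real.continuous_exp.tendsto 0).comp h2
        rw [Real.exp_zero] at this
        exact this
      have h3 : Tendsto (fun n => VN T k (t n) x) atTop (𝓝 x) := by
        let _ : NormedAlgebra ℚ (X →L[𝕜] X) := NormedAlgebra.restrictScalars ℚ 𝕜 (X →L[𝕜] X)
        have h4 : Tendsto (fun n => (((t n : ℝ) : 𝕜) • BB T k -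
            (((t n * k : ℝ)) : 𝕜) • (1 : X →L[𝕜] X))) atTop (𝓝 0) := by
          have h5 : Tendsto (fun n => ((t n : ℝ) : 𝕜)) atTop (𝓝 0) := by
            have := (RCLike.continuous_ofReal (K := 𝕜)).tendsto 0 |>.comp htlim
            rw [RCLike.ofReal_zero] at this
            exact this
          have h6 := (h5.smul_const (BB T k)).sub ((h5.mul_const (k : 𝕜)).smul_const
            (1 : X →L[𝕜] X))
          simp only [zero_smul, zero_mul, sub_zero] at h6
          refine h6.congr fun n => ?_
          push_cast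
          rfl
        have h5 := (exp_continuous (𝔸 := X →L[𝕜] X)).tendsto 0 |>.comp h4
        rw [exp_zero] at h5
        have h6 := (ContinuousLinearMap.apply 𝕜 X x).continuous.tendsto 1 |>.comp h5
        exact h6
      have h4 := h1.smul h3
      rw [RCLike.ofReal_one, one_smul] at h4
      refine h4.congr fun n => ?_
      rw [smul_apply, hLf k x hx n]

end

end Pool.Agent.KS6_80.PB
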