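import Pool.Agent.KS6_80.PB.A3

/-!
A bounded biorthogonal system adapted to commuting approximations of the identity.
-/

set_option autoImplicit false

namespace Pool.Agent.KS6_80.PB

open Filter Topology

noncomputable section

variable {𝕜 : Type*} [RCLike 𝕜] {X : Type*} [NormedAddCommGroup X] [NormedSpace 𝕜 X]

/-- Uniform convergence on the unit ball of a finite-dimensional subspace. -/
lemma unif_fin (V : ℕ → X →L[𝕜] X) (hV1 : ∀ n, ‖V n‖ ≤ 1)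
    (hVt : ∀ x, Tendsto (fun n => V n x) atTop (𝓝 x)) (F : Submodule 𝕜 X) [FiniteDimensional 𝕜 F]
    (ε : ℝ) (hε : 0 < ε) : ∀ᶠ n in atTop, ∀ y ∈ F, ‖V n y - y‖ ≤ ε * ‖y‖ := by
  have : ProperSpace F := FiniteDimensional.proper 𝕜 F
  have hK : IsCompact (Subtype.val '' (Metric.closedBall (0 : F) 1) : Set X) :=
    (isCompact_closedBall (0 : F) 1).image continuous_subtype_val
  obtain ⟨t, -, htf, hKt⟩ := hK.finite_cover_balls (show 0 < ε / 4 by positivity)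
  have h1 : ∀ᶠ n in atTop, ∀ c ∈ t, ‖V n c - c‖ < ε / 4 := by
    rw [htf.eventually_all]
    intro c _
    have := (Metric.tendsto_nhds.mp (hVt c)) (ε / 4) (by positivity)
    filter_upwards [this] with n hn
    rwa [dist_eq_norm] at hn
  filter_upwards [h1] with n hn y hy
  by_cases hy0 : y = 0
  · rw [hy0]; simp
  have hyn : 0 < ‖y‖ := norm_pos_iff.2 hy0
  have hu : (((‖y‖⁻¹ : ℝ) : 𝕜) • y) ∈ (Subtype.val '' (Metric.closedBall (0 : F) 1) : Set X) :=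
    ⟨⟨((‖y‖⁻¹ : ℝ) : 𝕜) • y, F.smul_mem _ hy⟩, by
      rw [mem_closedBall_zero_iff]
      show ‖((‖y‖⁻¹ : ℝ) : 𝕜) • y‖ ≤ 1
      rw [norm_smul, RCLike.norm_ofReal, abs_of_pos (inv_pos.2 hyn), inv_mul_cancel₀ hyn.ne'], rfl⟩
  have key : ∀ u ∈ (Subtype.val '' (Metric.closedBall (0 : F) 1) : Set X), ‖V n u - u‖ ≤ ε := by
    intro x hx
    obtain ⟨c, hc, hxc⟩ := Set.mem_iUnion₂.mp (hKt hx)
    rw [Metric.mem_ball, dist_eq_norm] at hxc
    have e : V n x - x = V n (x - c) + (V n c - c) - (x - c) := by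
      rw [map_sub]; abel
    have h2 : ‖V n (x - c)‖ ≤ ‖x - c‖ := by
      have := (V n).le_of_opNorm_le (hV1 n) (x - c)
      rwa [one_mul] at this
    have h3 := hn c hc
    calc ‖V n x - x‖ ≤ ‖V n (x - c) + (V n c - c)‖ + ‖x - c‖ := by rw [e]; exact norm_sub_le _ _
      _ ≤ ‖V n (x - c)‖ + ‖V n c - c‖ + ‖x - c‖ := by gcongr; exact norm_add_le _ _
      _ ≤ ε := by linarith
  have h2 := key _ hu
  rw [map_smul, ← smul_sub, norm_smul, RCLike.norm_ofReal, abs_of_pos (inv_pos.2 hyn),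
    inv_mul_le_iff₀ hyn] at h2
  linarith

/-- Norm convergence on norm limits of finite-rank operators. -/
lemma unif_apx (V : ℕ → X →L[𝕜] X) (hV1 : ∀ n, ‖V n‖ ≤ 1)
    (hVt : ∀ x, Tendsto (fun n => V n x) atTop (𝓝 x)) (A : X →L[𝕜] X) (hA : Apx A) (ε : ℝ)
    (hε : 0 < ε) : ∀ᶠ n in atTop, ‖V n ∘L A - A‖ ≤ ε := by
  obtain ⟨S, hS, hSn⟩ := hA (ε / 4) (by positivity)
  have hS' : FiniteDimensional 𝕜 (LinearMap.range (S : X →ₗ[𝕜] X)) := hS
  filter_upwards [unif_fin V hV1 hVt (LinearMap.range (S : X →ₗ[𝕜] X)) (ε / (2 * (‖S‖ + 1)))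
    (by positivity)] with n hn
  refine ContinuousLinearMap.opNorm_le_bound _ hε.le fun x => ?_
  have e : (V n ∘L A - A) x = V n ((A - S) x) - (A - S) x + (V n (S x) - S x) := by
    simp only [sub_apply, ContinuousLinearMap.comp_apply, map_sub]
    abel
  rw [e]
  have h1 : ‖(A - S) x‖ ≤ ε / 4 * ‖x‖ := (A - S).le_of_opNorm_le hSn x
  have h2 : ‖V n ((A - S) x)‖ ≤ 1 * ‖(A - S) x‖ := (V n).le_of_opNorm_le (hV1 n) _
  have h3 := hn (S x) ⟨x, rfl⟩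
  have h4 : ε / (2 * (‖S‖ + 1)) * ‖S x‖ ≤ ε / 2 * ‖x‖ := by
    calc _ ≤ ε / (2 * (‖S‖ + 1)) * ((‖S‖ + 1) * ‖x‖) := by
          gcongr
          refine (S.le_opNorm x).trans ?_
          have := norm_nonneg x
          nlinarith [norm_nonneg S]
      _ = _ := by
        have : ‖S‖ + 1 ≠ 0 := by positivity
        field_simp
  calc _ ≤ ‖V n ((A - S) x) - (A - S) x‖ + ‖V n (S x) - S x‖ := norm_add_le _ _
    _ ≤ ‖V n ((A - S) x)‖ + ‖(A - S) x‖ + ‖V n (S x) - S x‖ := by gcongr; exact norm_sub_le _ _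
    _ ≤ _ := by linarith

/-- Functionals which are norm limits of their images under the adjoint operators. -/
def Nice (V : ℕ → X →L[𝕜] X) (g : StrongDual 𝕜 X) : Prop :=
  ∀ ε : ℝ, 0 < ε → ∀ᶠ n in atTop, ‖g ∘L V n - g‖ ≤ ε

lemma Nice.sub {V : ℕ → X →L[𝕜] X} {g h : StrongDual 𝕜 X} (hg : Nice V g) (hh : Nice V h) :
    Nice V (g - h) := by
  intro ε hε
  filter_upwards [hg (ε / 2) (by positivity), hh (ε / 2) (by positivity)] with n h1 h2
  have e : (g - h) ∘L V n - (g - h) = (g ∘L V n - g) - (h ∘L V n - h) := by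
    rw [ContinuousLinearMap.sub_comp]
    abel
  rw [e]
  calc _ ≤ ‖g ∘L V n - g‖ + ‖h ∘L V n - h‖ := norm_sub_le _ _
    _ ≤ ε := by linarith

lemma Nice.add {V : ℕ → X →L[𝕜] X} {g h : StrongDual 𝕜 X} (hg : Nice V g) (hh : Nice V h) :
    Nice V (g + h) := by
  intro ε hε
  filter_upwards [hg (ε / 2) (by positivity), hh (ε / 2) (by positivity)] with n h1 h2
  have e : (g + h) ∘L V n - (g + h) = (g ∘L V n - g) + (h ∘L V n - h) := by
    rw [ContinuousLinearMap.add_comp]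
    abel
  rw [e]
  calc _ ≤ ‖g ∘L V n - g‖ + ‖h ∘L V n - h‖ := norm_add_le _ _
    _ ≤ ε := by linarith

lemma Nice.smul {V : ℕ → X →L[𝕜] X} {g : StrongDual 𝕜 X} (hg : Nice V g) (a : 𝕜) :
    Nice V (a • g) := by
  intro ε hε
  filter_upwards [hg (ε / (‖a‖ + 1)) (by positivity)] with n h1
  have e : (a • g) ∘L V n - a • g = a • (g ∘L V n - g) := by
    rw [ContinuousLinearMap.smul_comp, smul_sub]
  rw [e, norm_smul]
  calc _ ≤ (‖a‖ + 1) * (ε / (‖a‖ + 1)) := mul_le_mul (by linarith) h1 (norm_nonneg _) (by positivity)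
    _ = ε := by
      have : ‖a‖ + 1 ≠ 0 := by positivity
      field_simp

lemma Nice.zero {V : ℕ → X →L[𝕜] X} : Nice V (0 : StrongDual 𝕜 X) := by
  intro ε hε
  filter_upwards with n
  simp [hε.le]

lemma Nice.sum {V : ℕ → X →L[𝕜] X} {ι : Type*} (s : Finset ι) (g : ι → StrongDual 𝕜 X)
    (h : ∀ i ∈ s, Nice V (g i)) : Nice V (∑ i ∈ s, g i) := by
  classical
  induction s using Finset.induction with
  | empty => simpa using Nice.zero
  | insert a s ha ih =>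
    rw [Finset.sum_insert ha]
    exact (h a (Finset.mem_insert_self _ _)).add (ih fun i hi => h i (Finset.mem_insert_of_mem hi))

lemma nice_comp (V : ℕ → X →L[𝕜] X) (hV1 : ∀ n, ‖V n‖ ≤ 1)
    (hVc : ∀ m n x, V m (V n x) = V n (V m x)) (hVa : ∀ n, Apx (V n))
    (hVt : ∀ x, Tendsto (fun n => V n x) atTop (𝓝 x)) (g : StrongDual 𝕜 X) (s : ℕ) :
    Nice V (g ∘L V s) := by
  intro ε hε
  filter_upwards [unif_apx V hV1 hVt (V s) (hVa s) (ε / (‖g‖ + 1)) (by positivity)] with n hn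
  have e : (g ∘L V s) ∘L V n - g ∘L V s = g ∘L (V n ∘L V s - V s) := by
    ext x
    simp only [sub_apply, ContinuousLinearMap.comp_apply, map_sub, hVc s n x]
  rw [e]
  calc _ ≤ ‖g‖ * ‖V n ∘L V s - V s‖ := ContinuousLinearMap.opNorm_comp_le _ _
    _ ≤ (‖g‖ + 1) * (ε / (‖g‖ + 1)) := mul_le_mul (by linarith) hn (norm_nonneg _) (by positivity)
    _ = ε := by
      have : ‖g‖ + 1 ≠ 0 := by positivity
      field_simp

/-- A finite set of functionals whose common kernel is almost orthogonal to a finite-dimensional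
subspace (Mazur). -/
lemma mazur (F : Submodule 𝕜 X) [FiniteDimensional 𝕜 F] : ∃ H : Finset (StrongDual 𝕜 X),
    ∀ g : X, (∀ h ∈ H, h g = 0) → ∀ y ∈ F, (2 / 3) * ‖y‖ ≤ ‖y + g‖ := by
  classical
  have : ProperSpace F := FiniteDimensional.proper 𝕜 F
  have hK : IsCompact (Subtype.val '' (Metric.sphere (0 : F) 1) : Set X) :=
    (isCompact_sphere (0 : F) 1).image continuous_subtype_val
  obtain ⟨t, ht, htf, hKt⟩ := hK.finite_cover_balls (show (0 : ℝ) < 1 / 3 by norm_num)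
  have h1 : ∀ c : X, ‖c‖ = 1 → ∃ g : StrongDual 𝕜 X, ‖g‖ = 1 ∧ g c = 1 := by
    intro c hc
    obtain ⟨g, hg, hgc⟩ := exists_dual_vector 𝕜 c (by rw [hc]; norm_num)
    refine ⟨g, hg, ?_⟩
    rw [hgc, hc]
    norm_num
  have h1' : ∀ c : X, ∃ g : StrongDual 𝕜 X, ‖c‖ = 1 → ‖g‖ = 1 ∧ g c = 1 := by
    intro c
    by_cases hc : ‖c‖ = 1
    · obtain ⟨g, hg⟩ := h1 c hc
      exact ⟨g, fun _ => hg⟩
    · exact ⟨0, fun h => absurd h hc⟩
  choose N hN using h1'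
  refine ⟨htf.toFinset.image N, fun g hg y hy => ?_⟩
  by_cases hy0 : y = 0
  · rw [hy0]; simp
  have hyn : 0 < ‖y‖ := norm_pos_iff.2 hy0
  have hu1 : ‖((‖y‖⁻¹ : ℝ) : 𝕜) • y‖ = 1 := by
    rw [norm_smul, RCLike.norm_ofReal, abs_of_pos (inv_pos.2 hyn), inv_mul_cancel₀ hyn.ne']
  have hu : (((‖y‖⁻¹ : ℝ) : 𝕜) • y) ∈ (Subtype.val '' (Metric.sphere (0 : F) 1) : Set X) :=
    ⟨⟨((‖y‖⁻¹ : ℝ) : 𝕜) • y, F.smul_mem _ hy⟩, by
      rw [mem_sphere_zero_iff_norm]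
      exact hu1, rfl⟩
  obtain ⟨c, hc, hyc⟩ := Set.mem_iUnion₂.mp (hKt hu)
  rw [Metric.mem_ball, dist_eq_norm] at hyc
  have hcn : ‖c‖ = 1 := by
    obtain ⟨z, hz, rfl⟩ := ht hc
    rw [mem_sphere_zero_iff_norm] at hz
    exact hz
  obtain ⟨hN1, hN2⟩ := hN c hcn
  have h2 : N c g = 0 := hg _ (Finset.mem_image_of_mem _ (htf.mem_toFinset.2 hc))
  have h3 : ‖N c (((‖y‖⁻¹ : ℝ) : 𝕜) • (y + g))‖ ≤ ‖((‖y‖⁻¹ : ℝ) : 𝕜) • (y + g)‖ := by
    have := (N c).le_of_opNorm_le hN1.le (((‖y‖⁻¹ : ℝ) : 𝕜) • (y + g))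
    rwa [one_mul] at this
  have h4 : N c (((‖y‖⁻¹ : ℝ) : 𝕜) • (y + g)) = 1 + N c (((‖y‖⁻¹ : ℝ) : 𝕜) • y - c) := by
    rw [smul_add, map_add, map_sub, hN2, map_smul _ _ g, h2, smul_zero]
    ring
  have h5 : ‖N c (((‖y‖⁻¹ : ℝ) : 𝕜) • y - c)‖ ≤ 1 / 3 := by
    have := (N c).le_of_opNorm_le hN1.le (((‖y‖⁻¹ : ℝ) : 𝕜) • y - c)
    linarith
  have h6 : 2 / 3 ≤ ‖(1 : 𝕜) + N c (((‖y‖⁻¹ : ℝ) : 𝕜) • y - c)‖ := by
    have := norm_sub_norm_le (1 : 𝕜) (-N c (((‖y‖⁻¹ : ℝ) : 𝕜) • y - c))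
    rw [norm_one, norm_neg, sub_neg_eq_add] at this
    linarith
  rw [h4] at h3
  rw [norm_smul, RCLike.norm_ofReal, abs_of_pos (inv_pos.2 hyn)] at h3
  have h7 : 2 / 3 ≤ ‖y‖⁻¹ * ‖y + g‖ := h6.trans h3
  rw [le_inv_mul_iff₀ hyn] at h7
  linarith

lemma cofg_finset_inf {ι : Type*} (s : Finset ι) (K : ι → Submodule 𝕜 X)
    (h : ∀ i, (K i).CoFG) : (s.inf K).CoFG := by
  classical
  induction s using Finset.induction with
  | empty =>
    rw [Finset.inf_empty]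
    exact Submodule.CoFG.top
  | insert a s ha ih =>
    rw [Finset.inf_insert]
    exact (h a).inf ih

/-- A functional which vanishes on `F` and is one on a vector at distance at least `2/5`. -/
lemma exists_functional (F : Submodule 𝕜 X) (y : X)
    (hy : ∀ z ∈ F, 2 / 5 ≤ ‖y - z‖) : ∃ φ : StrongDual 𝕜 X, (∀ z ∈ F, φ z = 0) ∧ φ y = 1 ∧
      ‖φ‖ ≤ 5 / 2 := by
  have h1 : 2 / 5 ≤ ‖(Submodule.Quotient.mk y : X ⧸ F)‖ := by
    by_contra hcon
    push Not at hcon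
    obtain ⟨m, hm, hmn⟩ := Submodule.Quotient.norm_mk_lt (S := F)
      (Submodule.Quotient.mk y) (ε := 2 / 5 - ‖(Submodule.Quotient.mk y : X ⧸ F)‖) (by linarith)
    have h5 := (Submodule.Quotient.eq F).1 hm
    have h6 := hy (y - m) (by
      have := F.neg_mem h5
      rwa [neg_sub] at this)
    rw [sub_sub_cancel] at h6
    linarith
  obtain ⟨g, hg, hgy⟩ := exists_dual_vector 𝕜 (Submodule.Quotient.mk y : X ⧸ F) (by positivity)
  have hpos : 0 < ‖(Submodule.Quotient.mk y : X ⧸ F)‖ := by linarith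
  let φ : X →ₗ[𝕜] 𝕜 := ((‖(Submodule.Quotient.mk y : X ⧸ F)‖⁻¹ : ℝ) : 𝕜) •
    ((g : (X ⧸ F) →ₗ[𝕜] 𝕜) ∘ₗ F.mkQ)
  have hφ : ∀ x, φ x = ((‖(Submodule.Quotient.mk y : X ⧸ F)‖⁻¹ : ℝ) : 𝕜) *
      g (Submodule.Quotient.mk x) := fun x => rfl
  refine ⟨φ.mkContinuous (5 / 2) fun x => ?_, fun z hz => ?_, ?_, ?_⟩
  · rw [hφ, norm_mul, RCLike.norm_ofReal, abs_of_pos (inv_pos.2 hpos)]
    have h2 : ‖g (Submodule.Quotient.mk x)‖ ≤ ‖x‖ := by
      have h3 := g.le_of_opNorm_le hg.le (Submodule.Quotient.mk x)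
      rw [one_mul] at h3
      exact h3.trans (Submodule.Quotient.norm_mk_le _ _)
    have h4 : ‖(Submodule.Quotient.mk y : X ⧸ F)‖⁻¹ ≤ 5 / 2 := by
      rw [inv_le_comm₀ hpos (by norm_num)]
      norm_num at h1 ⊢
      exact h1
    exact mul_le_mul h4 h2 (norm_nonneg _) (by norm_num)
  · show φ z = 0
    rw [hφ, (Submodule.Quotient.mk_eq_zero _).2 hz, map_zero, mul_zero]
  · show φ y = 1
    rw [hφ, hgy, ← RCLike.ofReal_mul, inv_mul_cancel₀ hpos.ne', RCLike.ofReal_one]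
  · exact LinearMap.mkContinuous_norm_le _ (by norm_num) _

end

end Pool.Agent.KS6_80.PB
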