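import Pool.Agent.KS6_80.PB.B

/-!
A bounded biorthogonal system adapted to commuting approximations of the identity: the
construction.
-/

set_option autoImplicit false

namespace Pool.Agent.KS6_80.PB

open Filter Topology

noncomputable section

variable {𝕜 : Type*} [RCLike 𝕜] {X : Type*} [NormedAddCommGroup X] [NormedSpace 𝕜 X]

/-- One step of the construction. -/
lemma step (hinf : ¬ FiniteDimensional 𝕜 X) (V : ℕ → X →L[𝕜] X) (hV1 : ∀ n, ‖V n‖ ≤ 1)
    (hVc : ∀ m n x, V m (V n x) = V n (V m x)) (hVa : ∀ n, Apx (V n))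
    (hVt : ∀ x, Tendsto (fun n => V n x) atTop (𝓝 x)) (n : ℕ) (x : ℕ → X)
    (f : ℕ → StrongDual 𝕜 X) (hf : ∀ i < n, ‖f i‖ ≤ 3)
    (ho : ∀ i < n, ∀ j < n, f i (x j) = if i = j then 1 else 0) (hNi : ∀ i < n, Nice V (f i))
    (s : ℕ → ℕ) (ε : ℝ) (hε : 0 < ε) :
    ∃ (y : X) (g : StrongDual 𝕜 X), ‖y‖ = 1 ∧ ‖g‖ ≤ 3 ∧ g y = 1 ∧ (∀ i < n, f i y = 0) ∧
      (∀ i < n, g (x i) = 0) ∧ Nice V g ∧ (∀ m ≤ n, ‖V (s m) y‖ ≤ ε) ∧
      ∀ m ≤ n, ‖g ∘L V (s m)‖ ≤ ε := by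
  classical
  choose S hSf hSn using fun m => hVa (s m) (ε / 10) (by positivity)
  let F1 : Submodule 𝕜 X := (Finset.range (n + 1)).sup fun m => LinearMap.range (S m : X →ₗ[𝕜] X)
  let F2 : Submodule 𝕜 X := Submodule.span 𝕜 (x '' (Finset.range n : Set ℕ))
  have hF1 : FiniteDimensional 𝕜 F1 := by
    have : ∀ m, FiniteDimensional 𝕜 (LinearMap.range (S m : X →ₗ[𝕜] X)) := hSf
    exact Submodule.finiteDimensional_finset_sup _ _
  have hF2 : FiniteDimensional 𝕜 F2 :=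
    FiniteDimensional.span_of_finite 𝕜 ((Finset.finite_toSet _).image x)
  have hF : FiniteDimensional 𝕜 (F1 ⊔ F2 : Submodule 𝕜 X) := Submodule.finiteDimensional_sup _ _
  obtain ⟨H, hH⟩ := mazur (F1 ⊔ F2)
  let K : Submodule 𝕜 X := (H.inf fun h => LinearMap.ker (h : X →ₗ[𝕜] 𝕜)) ⊓
    ((Finset.range n).inf fun i => LinearMap.ker (f i : X →ₗ[𝕜] 𝕜)) ⊓
    ((Finset.range (n + 1)).inf fun m => LinearMap.ker (S m : X →ₗ[𝕜] X))
  have hK : K.CoFG := by
    refine ((cofg_finset_inf _ _ fun h => Submodule.CoFG.ker _).inf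
      (cofg_finset_inf _ _ fun i => Submodule.CoFG.ker _)).inf (cofg_finset_inf _ _ fun m => ?_)
    rw [← Submodule.range_fg_iff_ker_cofg]
    exact Module.Finite.iff_fg.1 (hSf m)
  have hKne : K ≠ ⊥ := by
    intro h
    rw [h] at hK
    exact hinf ((Module.Finite.iff_cofg_bot 𝕜 X).1 hK)
  obtain ⟨v, hvK, hv0⟩ := Submodule.exists_mem_ne_zero_of_ne_bot hKne
  have hvn : 0 < ‖v‖ := norm_pos_iff.2 hv0
  set y : X := ((‖v‖⁻¹ : ℝ) : 𝕜) • v with hy
  have hyK : y ∈ K := K.smul_mem _ hvK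
  have hy1 : ‖y‖ = 1 := by
    rw [hy, norm_smul, RCLike.norm_ofReal, abs_of_pos (inv_pos.2 hvn), inv_mul_cancel₀ hvn.ne']
  have hyH : ∀ h ∈ H, h y = 0 := fun h hh =>
    (Finset.inf_le (f := fun h : StrongDual 𝕜 X => LinearMap.ker (h : X →ₗ[𝕜] 𝕜)) hh) hyK.1.1
  have hyf : ∀ i < n, f i y = 0 := fun i hi =>
    (Finset.inf_le (f := fun i => LinearMap.ker (f i : X →ₗ[𝕜] 𝕜)) (Finset.mem_range.2 hi)) hyK.1.2
  have hyS : ∀ m ≤ n, S m y = 0 := fun m hm =>
    (Finset.inf_le (f := fun m => LinearMap.ker (S m : X →ₗ[𝕜] X))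
      (Finset.mem_range.2 (Nat.lt_succ_of_le hm))) hyK.2
  have hdist : ∀ z ∈ F1 ⊔ F2, 2 / 5 ≤ ‖y - z‖ := by
    intro z hz
    have h1 := hH y hyH (-z) ((F1 ⊔ F2).neg_mem hz)
    rw [norm_neg, neg_add_eq_sub] at h1
    have h2 := norm_sub_norm_le y z
    rw [hy1] at h2
    by_contra hcon
    push Not at hcon
    linarith
  obtain ⟨φ, hφF, hφy, hφn⟩ := exists_functional (F1 ⊔ F2) y hdist
  have hφx : ∀ i < n, φ (x i) = 0 := fun i hi => hφF _ (Submodule.mem_sup_right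
    (Submodule.subset_span ⟨i, Finset.mem_coe.2 (Finset.mem_range.2 hi), rfl⟩))
  have hφS : ∀ m ≤ n, ∀ w, φ (S m w) = 0 := fun m hm w => hφF _ (Submodule.mem_sup_left
    ((Finset.le_sup (f := fun m => LinearMap.range (S m : X →ₗ[𝕜] X))
      (Finset.mem_range.2 (Nat.lt_succ_of_le hm))) ⟨w, rfl⟩))
  set η : ℝ := min (1 / 30) (ε / 12) / ((n : ℝ) + 1) with hη
  have hη0 : 0 < η := by positivity
  have hn1 : (0 : ℝ) < (n : ℝ) + 1 := by positivity
  have hηn : (n : ℝ) * η ≤ min (1 / 30) (ε / 12) := by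
    rw [hη, mul_div_assoc', div_le_iff₀ hn1]
    have : (0 : ℝ) ≤ min (1 / 30) (ε / 12) := by positivity
    nlinarith
  have hη1 : η ≤ 1 / 30 := by
    rw [hη, div_le_iff₀ hn1]
    have h1 : min (1 / 30 : ℝ) (ε / 12) ≤ 1 / 30 := min_le_left _ _
    have : (0 : ℝ) ≤ n := Nat.cast_nonneg n
    linarith
  have hs1 : ∀ᶠ k in atTop, ‖φ (V k y) - 1‖ < η := by
    have h1 := (φ.continuous.tendsto y).comp (hVt y)
    rw [hφy] at h1
    filter_upwards [(Metric.tendsto_nhds.1 h1) η hη0] with k hk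
    rwa [dist_eq_norm] at hk
  have hs2 : ∀ᶠ k in atTop, ∀ i ∈ Finset.range n, ‖φ (V k (x i))‖ < η := by
    rw [Filter.eventually_all_finset]
    intro i hi
    have h1 := (φ.continuous.tendsto (x i)).comp (hVt (x i))
    rw [hφx i (Finset.mem_range.1 hi)] at h1
    filter_upwards [(Metric.tendsto_nhds.1 h1) η hη0] with k hk
    rwa [dist_zero_right] at hk
  obtain ⟨k, hk1, hk2⟩ := (hs1.and hs2).exists
  set c : 𝕜 := φ (V k y) with hc
  have hcn : 9 / 10 ≤ ‖c‖ := by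
    have := norm_sub_norm_le (1 : 𝕜) (1 - c)
    rw [norm_one, sub_sub_cancel, norm_sub_rev] at this
    linarith
  have hcpos : 0 < ‖c‖ := by linarith
  have hc0 : c ≠ 0 := norm_pos_iff.1 hcpos
  set g0 : StrongDual 𝕜 X := φ ∘L V k - ∑ i ∈ Finset.range n, (φ (V k (x i))) • f i with hg0
  have hg0a : ∀ w, g0 w = φ (V k w) - ∑ i ∈ Finset.range n, φ (V k (x i)) * f i w := by
    intro w
    rw [hg0, sub_apply, sum_apply]
    rfl
  have hsum : ∀ w : X, ∀ C : ℝ, (∀ i < n, ‖f i w‖ ≤ C) →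
      ‖∑ i ∈ Finset.range n, φ (V k (x i)) * f i w‖ ≤ (n : ℝ) * η * C := by
    intro w C hC
    calc _ ≤ ∑ i ∈ Finset.range n, ‖φ (V k (x i)) * f i w‖ := norm_sum_le _ _
      _ ≤ ∑ i ∈ Finset.range n, η * C := by
        refine Finset.sum_le_sum fun i hi => ?_
        rw [norm_mul]
        exact mul_le_mul (hk2 i hi).le (hC i (Finset.mem_range.1 hi)) (norm_nonneg _) hη0.le
      _ = _ := by rw [Finset.sum_const, Finset.card_range, nsmul_eq_mul, mul_assoc]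
  have hVle : ∀ m w, ‖V m w‖ ≤ ‖w‖ := fun m w => by
    have := (V m).le_of_opNorm_le (hV1 m) w
    rwa [one_mul] at this
  have hfle : ∀ i < n, ∀ w, ‖f i w‖ ≤ 3 * ‖w‖ := fun i hi w => (f i).le_of_opNorm_le (hf i hi) w
  have hφle : ∀ w, ‖φ w‖ ≤ 5 / 2 * ‖w‖ := fun w => φ.le_of_opNorm_le hφn w
  have hmin1 : min (1 / 30 : ℝ) (ε / 12) ≤ 1 / 30 := min_le_left _ _
  have hmin2 : min (1 / 30 : ℝ) (ε / 12) ≤ ε / 12 := min_le_right _ _
  have hinv : ∀ (w : X) (C : ℝ), ‖g0 w‖ ≤ (9 / 10) * C → ‖(c⁻¹ • g0) w‖ ≤ C := by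
    intro w C h
    rw [smul_apply, smul_eq_mul, norm_mul, norm_inv, inv_mul_le_iff₀ hcpos]
    have hC : 0 ≤ C := by
      have := norm_nonneg (g0 w)
      linarith
    nlinarith
  refine ⟨y, c⁻¹ • g0, hy1, ?_, ?_, hyf, ?_, ?_, ?_, ?_⟩
  · refine ContinuousLinearMap.opNorm_le_bound _ (by norm_num) fun w => hinv w _ ?_
    rw [hg0a]
    have h1 := hφle (V k w)
    have h2 := hVle k w
    have h3 := hsum w (3 * ‖w‖) fun i hi => hfle i hi w
    have h4 := norm_nonneg w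
    calc _ ≤ ‖φ (V k w)‖ + ‖∑ i ∈ Finset.range n, φ (V k (x i)) * f i w‖ := norm_sub_le _ _
      _ ≤ 5 / 2 * ‖w‖ + (1 / 30) * (3 * ‖w‖) := by
        have h5 : (n : ℝ) * η * (3 * ‖w‖) ≤ (1 / 30) * (3 * ‖w‖) :=
          mul_le_mul_of_nonneg_right (hηn.trans hmin1) (by positivity)
        linarith
      _ ≤ _ := by linarith
  · rw [smul_apply, hg0a, smul_eq_mul, Finset.sum_eq_zero, sub_zero, ← hc, inv_mul_cancel₀ hc0]
    intro i hi
    rw [hyf i (Finset.mem_range.1 hi), mul_zero]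
  · intro j hj
    rw [smul_apply, hg0a, Finset.sum_eq_single j]
    · rw [ho j hj j hj, if_pos rfl, mul_one, sub_self, smul_zero]
    · intro i hi hij
      rw [ho i (Finset.mem_range.1 hi) j hj, if_neg hij, mul_zero]
    · intro h
      exact absurd (Finset.mem_range.2 hj) h
  · exact ((nice_comp V hV1 hVc hVa hVt φ k).sub (Nice.sum _ _ fun i hi =>
      (hNi i (Finset.mem_range.1 hi)).smul _)).smul _
  · intro m hm
    have e : V (s m) y = (V (s m) - S m) y := by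
      rw [sub_apply, hyS m hm, sub_zero]
    rw [e]
    have := (V (s m) - S m).le_of_opNorm_le (hSn m) y
    rw [hy1] at this
    linarith
  · intro m hm
    refine ContinuousLinearMap.opNorm_le_bound _ hε.le fun w => ?_
    refine hinv (V (s m) w) _ ?_
    rw [hg0a]
    have e : φ (V k (V (s m) w)) = φ ((V (s m) - S m) (V k w)) := by
      rw [hVc k (s m) w, sub_apply, map_sub, hφS m hm, sub_zero]
    have h1 := hφle ((V (s m) - S m) (V k w))
    have h2 := (V (s m) - S m).le_of_opNorm_le (hSn m) (V k w)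
    have h2' := hVle k w
    have h2'' := hVle (s m) w
    have h3 := hsum (V (s m) w) (3 * ‖w‖) fun i hi => (hfle i hi _).trans (by linarith)
    have h4 := norm_nonneg w
    rw [e]
    calc _ ≤ ‖φ ((V (s m) - S m) (V k w))‖ +
          ‖∑ i ∈ Finset.range n, φ (V k (x i)) * f i (V (s m) w)‖ := norm_sub_le _ _
      _ ≤ 5 / 2 * (ε / 10 * ‖w‖) + (ε / 12) * (3 * ‖w‖) := by
        have h5 : (n : ℝ) * η * (3 * ‖w‖) ≤ (ε / 12) * (3 * ‖w‖) :=
          mul_le_mul_of_nonneg_right (hηn.trans hmin2) (by positivity)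
        have h6 : ε / 10 * ‖V k w‖ ≤ ε / 10 * ‖w‖ := by gcongr
        linarith
      _ ≤ _ := by
        have : 0 ≤ ε * ‖w‖ := by positivity
        linarith

/-- The first `n` stages of the construction. -/
def Good (V : ℕ → X →L[𝕜] X) (n : ℕ) (st : (ℕ → ℕ) × (ℕ → X) × (ℕ → StrongDual 𝕜 X)) : Prop :=
  (∀ i < n, i ≤ st.1 i ∧ ‖st.2.1 i‖ = 1 ∧ ‖st.2.2 i‖ ≤ 3 ∧ Nice V (st.2.2 i)) ∧
  (∀ i < n, ∀ j < n, st.2.2 i (st.2.1 j) = if i = j then 1 else 0) ∧
  ∀ i < n, ∀ m < n,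
    ‖V (st.1 m) (st.2.1 i) - (if i < m then st.2.1 i else 0)‖ ≤ (1 / 2) ^ m ∧
    ‖st.2.2 i ∘L V (st.1 m) - (if i < m then st.2.2 i else 0)‖ ≤ (1 / 2) ^ m

lemma ext_step (hinf : ¬ FiniteDimensional 𝕜 X) (V : ℕ → X →L[𝕜] X) (hV1 : ∀ n, ‖V n‖ ≤ 1)
    (hVc : ∀ m n x, V m (V n x) = V n (V m x)) (hVa : ∀ n, Apx (V n))
    (hVt : ∀ x, Tendsto (fun n => V n x) atTop (𝓝 x)) (n : ℕ)
    (st : (ℕ → ℕ) × (ℕ → X) × (ℕ → StrongDual 𝕜 X)) (h : Good V n st) :
    ∃ st' : (ℕ → ℕ) × (ℕ → X) × (ℕ → StrongDual 𝕜 X), Good V (n + 1) st' ∧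
      ∀ i < n, st'.1 i = st.1 i ∧ st'.2.1 i = st.2.1 i ∧ st'.2.2 i = st.2.2 i := by
  classical
  obtain ⟨s, x, f⟩ := st
  obtain ⟨h1, h2, h3⟩ := h
  simp only at h1 h2 h3
  have e1 : ∀ᶠ k in atTop, ∀ i ∈ Finset.range n, ‖V k (x i) - x i‖ < (1 / 2) ^ n := by
    rw [Filter.eventually_all_finset]
    intro i _
    filter_upwards [(Metric.tendsto_nhds.1 (hVt (x i))) ((1 / 2) ^ n) (by positivity)] with k hk
    rwa [dist_eq_norm] at hk
  have e2 : ∀ᶠ k in atTop, ∀ i ∈ Finset.range n, ‖f i ∘L V k - f i‖ ≤ (1 / 2) ^ n := by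
    rw [Filter.eventually_all_finset]
    intro i hi
    exact (h1 i (Finset.mem_range.1 hi)).2.2.2 _ (by positivity)
  obtain ⟨k, hk1, hk2, hk3⟩ := (e1.and (e2.and (eventually_ge_atTop n))).exists
  obtain ⟨y, g, hy1, hg1, hgy, hfy, hgx, hgN, hVy, hgV⟩ := step hinf V hV1 hVc hVa hVt n x f
    (fun i hi => (h1 i hi).2.2.1) h2 (fun i hi => (h1 i hi).2.2.2) (Function.update s n k)
    ((1 / 2) ^ n) (by positivity)
  refine ⟨(Function.update s n k, Function.update x n y, Function.update f n g), ⟨?_, ?_, ?_⟩, ?_⟩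
  · intro i hi
    rcases Nat.lt_succ_iff_lt_or_eq.1 hi with hi | rfl
    · simp only [Function.update_of_ne hi.ne]
      exact h1 i hi
    · simp only [Function.update_self]
      exact ⟨hk3, hy1, hg1, hgN⟩
  · intro i hi j hj
    rcases Nat.lt_succ_iff_lt_or_eq.1 hi with hi | rfl
    · rcases Nat.lt_succ_iff_lt_or_eq.1 hj with hj | rfl
      · simp only [Function.update_of_ne hi.ne, Function.update_of_ne hj.ne]
        exact h2 i hi j hj
      · simp only [Function.update_of_ne hi.ne, Function.update_self]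
        rw [hfy i hi, if_neg hi.ne]
    · rcases Nat.lt_succ_iff_lt_or_eq.1 hj with hj | rfl
      · simp only [Function.update_of_ne hj.ne, Function.update_self]
        rw [hgx j hj, if_neg hj.ne']
      · simp only [Function.update_self]
        rw [hgy, if_true]
  · intro i hi m hm
    rcases Nat.lt_succ_iff_lt_or_eq.1 hi with hi | rfl
    · rcases Nat.lt_succ_iff_lt_or_eq.1 hm with hm | rfl
      · simp only [Function.update_of_ne hi.ne, Function.update_of_ne hm.ne]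
        exact h3 i hi m hm
      · simp only [Function.update_of_ne hi.ne, Function.update_self]
        rw [if_pos hi, if_pos hi]
        exact ⟨(hk1 i (Finset.mem_range.2 hi)).le, hk2 i (Finset.mem_range.2 hi)⟩
    · have hmi : m ≤ i := Nat.lt_succ_iff.1 hm
      have hpow : (1 / 2 : ℝ) ^ i ≤ (1 / 2) ^ m :=
        pow_le_pow_of_le_one (by norm_num) (by norm_num) hmi
      have a1 := hVy m hmi
      have a2 := hgV m hmi
      simp only [Function.update_self]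
      rw [if_neg (by omega), if_neg (by omega), sub_zero, sub_zero]
      exact ⟨a1.trans hpow, a2.trans hpow⟩
  · intro i hi
    simp only [Function.update_of_ne hi.ne]
    exact ⟨trivial, trivial, trivial⟩

/-- A bounded biorthogonal system adapted to a subsequence of `V`. -/
theorem exists_chain (hinf : ¬ FiniteDimensional 𝕜 X) (V : ℕ → X →L[𝕜] X) (hV1 : ∀ n, ‖V n‖ ≤ 1)
    (hVc : ∀ m n x, V m (V n x) = V n (V m x)) (hVa : ∀ n, Apx (V n))
    (hVt : ∀ x, Tendsto (fun n => V n x) atTop (𝓝 x)) :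
    ∃ (s : ℕ → ℕ) (x : ℕ → X) (f : ℕ → StrongDual 𝕜 X),
      (∀ i, i ≤ s i) ∧ (∀ i, ‖x i‖ = 1) ∧ (∀ i, ‖f i‖ ≤ 3) ∧
      (∀ i j, f i (x j) = if i = j then 1 else 0) ∧
      ∀ i m, ‖V (s m) (x i) - (if i < m then x i else 0)‖ ≤ (1 / 2) ^ m ∧
        ‖f i ∘L V (s m) - (if i < m then f i else 0)‖ ≤ (1 / 2) ^ m := by
  have h0 : Good V 0 ((fun _ => 0), (fun _ => 0), (fun _ => (0 : StrongDual 𝕜 X))) :=
    ⟨fun i hi => absurd hi (Nat.not_lt_zero _), fun i hi => absurd hi (Nat.not_lt_zero _),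
      fun i hi => absurd hi (Nat.not_lt_zero _)⟩
  choose nxt hn1 hn2 using ext_step hinf V hV1 hVc hVa hVt
  let S : ∀ n, {st : (ℕ → ℕ) × (ℕ → X) × (ℕ → StrongDual 𝕜 X) // Good V n st} := fun n =>
    Nat.rec ⟨_, h0⟩ (fun n p => ⟨nxt n p.1 p.2, hn1 n p.1 p.2⟩) n
  have hS : ∀ n, (S (n + 1)).1 = nxt n (S n).1 (S n).2 := fun n => rfl
  have hag : ∀ i m, i + 1 ≤ m → (S m).1.1 i = (S (i + 1)).1.1 i ∧
      (S m).1.2.1 i = (S (i + 1)).1.2.1 i ∧ (S m).1.2.2 i = (S (i + 1)).1.2.2 i := by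
    intro i m hm
    induction m, hm using Nat.le_induction with
    | base => exact ⟨rfl, rfl, rfl⟩
    | succ m hm ih =>
      have := hn2 m (S m).1 (S m).2 i (by omega)
      rw [hS]
      exact ⟨this.1.trans ih.1, this.2.1.trans ih.2.1, this.2.2.trans ih.2.2⟩
  refine ⟨fun i => (S (i + 1)).1.1 i, fun i => (S (i + 1)).1.2.1 i, fun i => (S (i + 1)).1.2.2 i,
    fun i => ((S (i + 1)).2.1 i (Nat.lt_succ_self i)).1,
    fun i => ((S (i + 1)).2.1 i (Nat.lt_succ_self i)).2.1,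
    fun i => ((S (i + 1)).2.1 i (Nat.lt_succ_self i)).2.2.1, fun i j => ?_, fun i m => ?_⟩
  · have a1 := hag i (max i j + 1) (by omega)
    have a2 := hag j (max i j + 1) (by omega)
    have a3 := (S (max i j + 1)).2.2.1 i (by omega) j (by omega)
    rw [a1.2.2, a2.2.1] at a3
    exact a3
  · have a1 := hag i (max i m + 1) (by omega)
    have a2 := hag m (max i m + 1) (by omega)
    have a3 := (S (max i m + 1)).2.2.2 i (by omega) m (by omega)
    rw [a1.2.2, a1.2.1, a2.1] at a3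
    exact a3

end

end Pool.Agent.KS6_80.PB
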