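import Pool.Graph.R_seed8.Y496.SB.A
import Pool.Agent.KS6_80.PB.B2

/-!
Operators which are almost slow multipliers are almost contractive for the new norm.
-/

set_option autoImplicit false

namespace Pool.Agent.KS6_80.PB

open Filter Topology NNReal
open Pool.Agent.Helper519.Renorm

noncomputable section

variable {𝕜 : Type*} [RCLike 𝕜] {X : Type*} [NormedAddCommGroup X] [NormedSpace 𝕜 X]

lemma N_nonneg (B : BSys 𝕜 X) (y : X) : 0 ≤ B.N y := apply_nonneg _ _

lemma N_le_norm (B : BSys 𝕜 X) (y : X) : B.N y ≤ 4 * B.M * ‖y‖ := B.N_adm.1 y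

/-- Almost slow multipliers are almost contractive for the new norm. -/
theorem N_mult' (B : BSys 𝕜 X) (T : X →ₗ[𝕜] X) (hT : ∀ y, ‖T y‖ ≤ ‖y‖) (l : ℕ → ℝ) (δ e : ℝ)
    (hl0 : ∀ j, 0 ≤ l j) (hl1 : ∀ j, l j ≤ 1) (hld : ∀ j, |l (j + 1) - l j| ≤ δ)
    (hTx : ∀ j, ‖T (B.x j) - ((l j : ℝ) : 𝕜) • B.x j‖ ≤ e)
    (hTf : ∀ j y, ‖B.f j (T y) - ((l j : ℝ) : 𝕜) * B.f j y‖ ≤ e * ‖y‖) (y : X) :
    B.N (T y) ≤ (1 + (2 * B.M * δ + 7 * B.M * e)) * B.N y := by
  have hM := B.hM
  have hM0 := B.M_pos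
  have hδ : 0 ≤ δ := (abs_nonneg _).trans (hld 0)
  have he : 0 ≤ e := (norm_nonneg _).trans (hTx 0)
  have hr := B.r_pos
  have hMr := B.M_mul_r
  have hpos : 0 < 1 + (2 * B.M * δ + 7 * B.M * e) := by positivity
  have hMδ : 0 ≤ B.M * δ := by positivity
  have hMe : 0 ≤ B.M * e := by positivity
  set c : ℝ≥0 := ⟨(1 + (2 * B.M * δ + 7 * B.M * e))⁻¹, by positivity⟩ with hc
  have hcv : (c : ℝ) = (1 + (2 * B.M * δ + 7 * B.M * e))⁻¹ := rfl
  have hc1 : (c : ℝ) ≤ 1 := by
    rw [hcv]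
    apply inv_le_one_of_one_le₀
    linarith
  have hc0 : 0 ≤ (c : ℝ) := c.2
  have hNerr : ∀ j, B.N (T (B.x j) - ((l j : ℝ) : 𝕜) • B.x j) ≤ 4 * (B.M * e) := by
    intro j
    refine (N_le_norm B _).trans ?_
    have := hTx j
    have h2 : B.M * ‖T (B.x j) - ((l j : ℝ) : 𝕜) • B.x j‖ ≤ B.M * e := by gcongr
    linarith
  have key : ((c • B.N.comp T : Seminorm 𝕜 X)) y ≤ B.N y := by
    apply B.le_N
    refine ⟨fun y => ?_, fun j => ?_, fun k d hd hdr => ?_⟩
    · show (c : ℝ) * B.N (T y) ≤ _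
      have h1 := B.N_adm.1 (T y)
      have h2 : 4 * B.M * ‖T y‖ ≤ 4 * B.M * ‖y‖ := by
        have := hT y
        gcongr
      have h3 : 0 ≤ B.N (T y) := apply_nonneg _ _
      nlinarith
    · show (c : ℝ) * B.N (T (B.x j)) ≤ 1
      rw [hcv, inv_mul_le_iff₀ hpos, mul_one]
      have h1 := B.N_x_le j
      have h3 : 0 ≤ B.N (B.x j) := apply_nonneg _ _
      have h2 : B.N (((l j : ℝ) : 𝕜) • B.x j) ≤ 1 := by
        rw [map_smul_eq_mul, RCLike.norm_ofReal, abs_of_nonneg (hl0 j)]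
        have := hl1 j
        have := hl0 j
        nlinarith
      have e1 : T (B.x j) = (T (B.x j) - ((l j : ℝ) : 𝕜) • B.x j) + ((l j : ℝ) : 𝕜) • B.x j := by
        abel
      have h4 : B.N (T (B.x j)) ≤ B.N (T (B.x j) - ((l j : ℝ) : 𝕜) • B.x j) +
          B.N (((l j : ℝ) : 𝕜) • B.x j) := by
        conv_lhs => rw [e1]
        exact map_add_le_add _ _ _
      have h5 := hNerr j
      linarith
    · show (c : ℝ) * B.N (T (B.U k + d)) ≤ 1
      have hfinal : B.N (T (B.U k + d)) ≤ 1 + (2 * B.M * δ + 7 * B.M * e) := by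
        -- the error in the functional
        set a : 𝕜 := B.Φ k (T d) with ha
        have hdr' : ‖d‖ ≤ 1 / 16 := hdr.trans B.r_le
        have hMd : B.M * ‖d‖ ≤ 1 / 16 := by
          rw [← hMr]
          gcongr
        have han : ‖a‖ ≤ δ * (1 / 16) + 2 * (e * ‖d‖) := by
          have e0 : a = (B.f (k + 2) (T d) - ((l (k + 2) : ℝ) : 𝕜) * B.f (k + 2) d) +
              (B.f (k + 1) (T d) - ((l (k + 1) : ℝ) : 𝕜) * B.f (k + 1) d) +
              ((((l (k + 2) - l (k + 1) : ℝ)) : 𝕜) * B.f (k + 2) d +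
              ((l (k + 1) : ℝ) : 𝕜) * B.Φ k d) := by
            rw [ha, BSys.Φ, LinearMap.add_apply, LinearMap.add_apply]
            push_cast
            ring
          have h0 : ‖(((l (k + 2) - l (k + 1) : ℝ)) : 𝕜) * B.f (k + 2) d +
              ((l (k + 1) : ℝ) : 𝕜) * B.Φ k d‖ ≤ δ * (1 / 16) := by
            rw [hd, mul_zero, add_zero, norm_mul, RCLike.norm_ofReal]
            have h1 := hld (k + 1)
            have h2 := B.nf (k + 2) d
            calc _ ≤ δ * ‖B.f (k + 2) d‖ := by gcongr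
              _ ≤ δ * (1 / 16) := by gcongr; linarith
          have h1 := hTf (k + 2) d
          have h2 := hTf (k + 1) d
          rw [e0]
          refine (norm_add_le _ _).trans ?_
          have h3 := norm_add_le (B.f (k + 2) (T d) - ((l (k + 2) : ℝ) : 𝕜) * B.f (k + 2) d)
              (B.f (k + 1) (T d) - ((l (k + 1) : ℝ) : 𝕜) * B.f (k + 1) d)
          linarith
        have hMa : 16 * B.M * ‖a‖ ≤ B.M * δ + 2 * (B.M * e) := by
          have h1 : B.M * ‖a‖ ≤ B.M * (δ * (1 / 16) + 2 * (e * ‖d‖)) := by gcongr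
          have h2 : e * ‖d‖ ≤ e * (1 / 16) := by gcongr
          have h3 : B.M * (e * ‖d‖) ≤ B.M * (e * (1 / 16)) := by gcongr
          nlinarith
        have ha8 : ‖a‖ ≤ δ * (1 / 16) + e * (1 / 8) := by
          have h2 : e * ‖d‖ ≤ e * (1 / 16) := by gcongr
          linarith
        set ρ : ℝ := B.M * δ + 2 * (B.M * e) with hρ
        have hρ0 : 0 ≤ ρ := by positivity
        set d' : X := T d - a • B.x (k + 1) with hd'
        have hΦx : B.Φ k (B.x (k + 1)) = 1 := by
          rw [BSys.Φ, LinearMap.add_apply, B.ortho, B.ortho]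
          simp
        have hΦd' : B.Φ k d' = 0 := by
          rw [hd', map_sub, map_smul, hΦx, ← ha, smul_eq_mul, mul_one, sub_self]
        have hd'n : ‖d'‖ ≤ B.r * (1 + ρ) := by
          have h1 : ‖d'‖ ≤ ‖T d‖ + ‖a • B.x (k + 1)‖ := norm_sub_le _ _
          rw [norm_smul, B.nx, mul_one] at h1
          have h2 := hT d
          have h3 : ‖a‖ ≤ B.r * ρ := by
            have h4 : B.r * (16 * B.M * ‖a‖) ≤ B.r * ρ := by gcongr
            have h5 : B.r * (16 * B.M * ‖a‖) = ‖a‖ := by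
              calc _ = 16 * (B.M * B.r) * ‖a‖ := by ring
                _ = ‖a‖ := by rw [hMr]; ring
            linarith
          linarith
        have hs : 0 < 1 + ρ := by positivity
        set d'' : X := (((1 + ρ)⁻¹ : ℝ) : 𝕜) • d' with hd''
        have hd''n : ‖d''‖ ≤ B.r := by
          rw [hd'', norm_smul, RCLike.norm_ofReal, abs_of_pos (by positivity)]
          rw [inv_mul_le_iff₀ hs]
          linarith
        have hΦd'' : B.Φ k d'' = 0 := by
          rw [hd'', map_smul, hΦd', smul_zero]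
        have hd'd'' : d' = (((1 + ρ : ℝ)) : 𝕜) • d'' := by
          rw [hd'', smul_smul, ← RCLike.ofReal_mul, mul_inv_cancel₀ hs.ne', RCLike.ofReal_one,
            one_smul]
        have hNd'' : B.N d'' ≤ 1 / 4 := by
          have h1 := B.N_adm.1 d''
          have h2 : B.M * ‖d''‖ ≤ B.M * B.r := by gcongr
          nlinarith
        have h1 : B.N (((l k : ℝ) : 𝕜) • B.U k + d'') ≤ 1 := by
          have eU : ((l k : ℝ) : 𝕜) • B.U k + d'' = ((l k : ℝ) : 𝕜) • (B.U k + d'') +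
              ((1 - l k : ℝ) : 𝕜) • d'' := by
            rw [RCLike.ofReal_sub, RCLike.ofReal_one, smul_add, sub_smul, one_smul]
            abel
          rw [eU]
          have h2 := B.N_adm.2.2 k d'' hΦd'' hd''n
          have h3 := hl0 k
          have h4 := hl1 k
          calc _ ≤ B.N (((l k : ℝ) : 𝕜) • (B.U k + d'')) + B.N (((1 - l k : ℝ) : 𝕜) • d'') :=
                map_add_le_add _ _ _
            _ = l k * B.N (B.U k + d'') + (1 - l k) * B.N d'' := by
                rw [map_smul_eq_mul, map_smul_eq_mul, RCLike.norm_ofReal, RCLike.norm_ofReal,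
                  abs_of_nonneg h3, abs_of_nonneg (by linarith)]
            _ ≤ 1 := by nlinarith
        set E1 : X := T (B.x (k + 1)) - ((l (k + 1) : ℝ) : 𝕜) • B.x (k + 1) with hE1
        set E0 : X := T (B.x k) - ((l k : ℝ) : 𝕜) • B.x k with hE0
        have hTU : T (B.U k) = ((l k : ℝ) : 𝕜) • B.U k +
            ((l (k + 1) - l k : ℝ) : 𝕜) • B.x (k + 1) + (E1 - (1 / 2 : 𝕜) • E0) := by
          have e1 : T (B.x (k + 1)) = E1 + ((l (k + 1) : ℝ) : 𝕜) • B.x (k + 1) := by
            rw [hE1]; abel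
          have e2 : T (B.x k) = E0 + ((l k : ℝ) : 𝕜) • B.x k := by
            rw [hE0]; abel
          rw [BSys.U, map_sub, map_smul, e1, e2, smul_sub, RCLike.ofReal_sub, sub_smul, smul_add]
          rw [smul_comm (1 / 2 : 𝕜) ((l k : ℝ) : 𝕜) (B.x k)]
          abel
        have eT : T (B.U k + d) = (((l k : ℝ) : 𝕜) • B.U k + d'') +
            ((l (k + 1) - l k : ℝ) : 𝕜) • B.x (k + 1) + ((ρ : ℝ) : 𝕜) • d'' +
            a • B.x (k + 1) + (E1 - (1 / 2 : 𝕜) • E0) := by
          have e1 : T d = d' + a • B.x (k + 1) := by rw [hd']; abel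
          rw [map_add, hTU, e1, hd'd'', RCLike.ofReal_add, RCLike.ofReal_one, add_smul, one_smul]
          abel
        rw [eT]
        have hx1 := B.N_x_le (k + 1)
        have h2 : B.N (((l (k + 1) - l k : ℝ) : 𝕜) • B.x (k + 1)) ≤ δ := by
          rw [map_smul_eq_mul, RCLike.norm_ofReal]
          have := hld k
          have h0 : 0 ≤ B.N (B.x (k + 1)) := apply_nonneg _ _
          nlinarith [abs_nonneg (l (k + 1) - l k)]
        have h3 : B.N (((ρ : ℝ) : 𝕜) • d'') ≤ ρ * (1 / 4) := by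
          rw [map_smul_eq_mul, RCLike.norm_ofReal, abs_of_nonneg hρ0]
          gcongr
        have h4 : B.N (a • B.x (k + 1)) ≤ δ * (1 / 16) + e * (1 / 8) := by
          rw [map_smul_eq_mul]
          have h0 : 0 ≤ B.N (B.x (k + 1)) := apply_nonneg _ _
          nlinarith [norm_nonneg a]
        have h5 : δ ≤ B.M * δ := by nlinarith
        have h5' : e ≤ B.M * e := by nlinarith
        have h6 : B.N (E1 - (1 / 2 : 𝕜) • E0) ≤ 6 * (B.M * e) := by
          have h7 := hNerr (k + 1)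
          have h8 := hNerr k
          have h9 : B.N (E1 - (1 / 2 : 𝕜) • E0) ≤ B.N E1 + B.N ((1 / 2 : 𝕜) • E0) :=
            map_sub_le_add _ _ _
          rw [map_smul_eq_mul, BSys.norm_half] at h9
          linarith
        calc _ ≤ B.N (((l k : ℝ) : 𝕜) • B.U k + d'' + ((l (k + 1) - l k : ℝ) : 𝕜) • B.x (k + 1) +
              ((ρ : ℝ) : 𝕜) • d'' + a • B.x (k + 1)) + B.N (E1 - (1 / 2 : 𝕜) • E0) :=
                map_add_le_add _ _ _
          _ ≤ B.N (((l k : ℝ) : 𝕜) • B.U k + d'' + ((l (k + 1) - l k : ℝ) : 𝕜) • B.x (k + 1) +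
              ((ρ : ℝ) : 𝕜) • d'') + B.N (a • B.x (k + 1)) + B.N (E1 - (1 / 2 : 𝕜) • E0) := by
                gcongr; exact map_add_le_add _ _ _
          _ ≤ B.N (((l k : ℝ) : 𝕜) • B.U k + d'' + ((l (k + 1) - l k : ℝ) : 𝕜) • B.x (k + 1)) +
              B.N (((ρ : ℝ) : 𝕜) • d'') + B.N (a • B.x (k + 1)) +
              B.N (E1 - (1 / 2 : 𝕜) • E0) := by
                gcongr; exact map_add_le_add _ _ _
          _ ≤ B.N (((l k : ℝ) : 𝕜) • B.U k + d'') +
              B.N (((l (k + 1) - l k : ℝ) : 𝕜) • B.x (k + 1)) +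
              B.N (((ρ : ℝ) : 𝕜) • d'') + B.N (a • B.x (k + 1)) +
              B.N (E1 - (1 / 2 : 𝕜) • E0) := by
                gcongr; exact map_add_le_add _ _ _
          _ ≤ _ := by
                rw [hρ] at h3
                linarith
      rw [hcv, inv_mul_le_iff₀ hpos, mul_one]
      exact hfinal
  have h1 : (c : ℝ) * B.N (T y) ≤ B.N y := key
  rw [hcv, inv_mul_le_iff₀ hpos] at h1
  exact h1

end

end Pool.Agent.KS6_80.PB
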