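import Pool.Agent.KS6_80.PB.C

/-!
The renormed space has the metric approximation property.
-/

set_option autoImplicit false

namespace Pool.Agent.KS6_80.PB

open Filter Topology NNReal
open Pool.Agent.Helper519.Renorm
open Pool.Agent.Y496.SB (mu mu_nonneg mu_le mu_diff mu_cast)

noncomputable section

variable {𝕜 : Type*} [RCLike 𝕜] {X : Type*} [NormedAddCommGroup X] [NormedSpace 𝕜 X]

lemma Apx.add {A B : X →L[𝕜] X} (hA : Apx A) (hB : Apx B) : Apx (A + B) := by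
  intro ε hε
  obtain ⟨S, hS, hSn⟩ := hA (ε / 2) (by positivity)
  obtain ⟨R, hR, hRn⟩ := hB (ε / 2) (by positivity)
  have hS' : FiniteDimensional 𝕜 (LinearMap.range (S : X →ₗ[𝕜] X)) := hS
  have hR' : FiniteDimensional 𝕜 (LinearMap.range (R : X →ₗ[𝕜] X)) := hR
  refine ⟨S + R, FR.of_le (LinearMap.range (S : X →ₗ[𝕜] X) ⊔ LinearMap.range (R : X →ₗ[𝕜] X))
    fun x => Submodule.add_mem_sup ⟨x, rfl⟩ ⟨x, rfl⟩, ?_⟩
  have e : A + B - (S + R) = (A - S) + (B - R) := by abel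
  rw [e]
  refine (norm_add_le _ _).trans ?_
  linarith

lemma Apx.zero : Apx (0 : X →L[𝕜] X) := by
  intro ε hε
  refine ⟨0, FR.of_le (⊥ : Submodule 𝕜 X) fun x => by simp, by simpa using hε.le⟩

lemma Apx.sum {ι : Type*} (s : Finset ι) (A : ι → X →L[𝕜] X) (h : ∀ i, Apx (A i)) :
    Apx (∑ i ∈ s, A i) := by
  classical
  induction s using Finset.induction with
  | empty => simpa using Apx.zero
  | insert a s ha ih =>
    rw [Finset.sum_insert ha]
    exact (h a).add ih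

/-- Averages of a sequence of operators. -/
def SS (W : ℕ → X →L[𝕜] X) (n : ℕ) : X →L[𝕜] X :=
  (((((n : ℝ) + 1)⁻¹ : ℝ)) : 𝕜) • ∑ m ∈ Finset.range (n + 1), W (n + 1 + m)

lemma SS_apply (W : ℕ → X →L[𝕜] X) (n : ℕ) (y : X) :
    SS W n y = (((((n : ℝ) + 1)⁻¹ : ℝ)) : 𝕜) • ∑ m ∈ Finset.range (n + 1), W (n + 1 + m) y := by
  rw [SS, smul_apply, sum_apply]

lemma avg_const (n : ℕ) (y : X) :
    (((((n : ℝ) + 1)⁻¹ : ℝ)) : 𝕜) • ∑ _m ∈ Finset.range (n + 1), y = y := by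
  rw [Finset.sum_const, Finset.card_range, ← Nat.cast_smul_eq_nsmul 𝕜, smul_smul]
  have h3 : ((n + 1 : ℕ) : 𝕜) = (((n : ℝ) + 1 : ℝ) : 𝕜) := by push_cast; rfl
  rw [h3, ← RCLike.ofReal_mul, inv_mul_cancel₀ (by positivity), RCLike.ofReal_one, one_smul]

lemma avg_norm_le {Z : Type*} [NormedAddCommGroup Z] [NormedSpace 𝕜 Z] (n : ℕ) (z : ℕ → Z)
    (C : ℝ) (h : ∀ m < n + 1, ‖z m‖ ≤ C) :
    ‖(((((n : ℝ) + 1)⁻¹ : ℝ)) : 𝕜) • ∑ m ∈ Finset.range (n + 1), z m‖ ≤ C := by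
  have hn : (0 : ℝ) < (n : ℝ) + 1 := by positivity
  rw [norm_smul, RCLike.norm_ofReal, abs_of_pos (inv_pos.2 hn), inv_mul_le_iff₀ hn]
  calc _ ≤ ∑ m ∈ Finset.range (n + 1), ‖z m‖ := norm_sum_le _ _
    _ ≤ ∑ m ∈ Finset.range (n + 1), C :=
        Finset.sum_le_sum fun m hm => h m (Finset.mem_range.1 hm)
    _ = _ := by
        rw [Finset.sum_const, Finset.card_range, nsmul_eq_mul]
        push_cast
        ring

lemma avg_norm_le' {Z : Type*} [NormedAddCommGroup Z] [NormedSpace 𝕜 Z] (n : ℕ) (z : ℕ → Z)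
    (C : ℝ) (hC : 0 ≤ C) (h : ∀ m < n + 1, ‖z m‖ ≤ (1 / 2) ^ (n + 1 + m) * C) :
    ‖(((((n : ℝ) + 1)⁻¹ : ℝ)) : 𝕜) • ∑ m ∈ Finset.range (n + 1), z m‖ ≤ 1 / ((n : ℝ) + 1) * C := by
  have hn : (0 : ℝ) < (n : ℝ) + 1 := by positivity
  rw [norm_smul, RCLike.norm_ofReal, abs_of_pos (inv_pos.2 hn), one_div, mul_comm _ C, mul_comm _ ‖_‖]
  refine mul_le_mul_of_nonneg_right ?_ (inv_pos.2 hn).le
  have h1 : ∑ m ∈ Finset.range (n + 1), (1 / 2 : ℝ) ^ (n + 1 + m) ≤ 1 := by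
    have h2 : ∑ m ∈ Finset.range (n + 1), (1 / 2 : ℝ) ^ m ≤ 2 := by
      have h3 := summable_geometric_two.sum_le_tsum (Finset.range (n + 1))
        (fun i _ => by positivity)
      rwa [tsum_geometric_two] at h3
    have h3 : (1 / 2 : ℝ) ^ (n + 1) ≤ 1 / 2 := by
      rw [pow_succ]
      have : (1 / 2 : ℝ) ^ n ≤ 1 := pow_le_one₀ (by norm_num) (by norm_num)
      linarith
    have h4 : ∑ m ∈ Finset.range (n + 1), (1 / 2 : ℝ) ^ (n + 1 + m) =
        (1 / 2 : ℝ) ^ (n + 1) * ∑ m ∈ Finset.range (n + 1), (1 / 2 : ℝ) ^ m := by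
      rw [Finset.mul_sum]
      exact Finset.sum_congr rfl fun m _ => pow_add _ _ _
    rw [h4]
    have h5 : (0 : ℝ) < (1 / 2) ^ (n + 1) := by positivity
    nlinarith
  calc _ ≤ ∑ m ∈ Finset.range (n + 1), ‖z m‖ := norm_sum_le _ _
    _ ≤ ∑ m ∈ Finset.range (n + 1), (1 / 2) ^ (n + 1 + m) * C :=
        Finset.sum_le_sum fun m hm => h m (Finset.mem_range.1 hm)
    _ = (∑ m ∈ Finset.range (n + 1), (1 / 2 : ℝ) ^ (n + 1 + m)) * C := by rw [Finset.sum_mul]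
    _ ≤ 1 * C := by gcongr
    _ = C := one_mul C

lemma SS_norm (W : ℕ → X →L[𝕜] X) (hW : ∀ n, ‖W n‖ ≤ 1) (n : ℕ) (y : X) : ‖SS W n y‖ ≤ ‖y‖ := by
  rw [SS_apply]
  refine avg_norm_le n (fun m => W (n + 1 + m) y) _ fun m _ => ?_
  have := (W (n + 1 + m)).le_of_opNorm_le (hW _) y
  rwa [one_mul] at this

lemma SS_tendsto (W : ℕ → X →L[𝕜] X) (hWt : ∀ x, Tendsto (fun n => W n x) atTop (𝓝 x)) (y : X) :
    Tendsto (fun n => SS W n y) atTop (𝓝 y) := by
  rw [Metric.tendsto_atTop]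
  intro ε hε
  obtain ⟨N, hN⟩ := (Metric.tendsto_atTop.1 (hWt y)) (ε / 2) (by positivity)
  refine ⟨N, fun n hn => ?_⟩
  rw [dist_eq_norm]
  have e : SS W n y - y = (((((n : ℝ) + 1)⁻¹ : ℝ)) : 𝕜) •
      ∑ m ∈ Finset.range (n + 1), (W (n + 1 + m) y - y) := by
    rw [SS_apply, Finset.sum_sub_distrib, smul_sub, avg_const]
  rw [e]
  refine (avg_norm_le n (fun m => W (n + 1 + m) y - y) (ε / 2) fun m _ => ?_).trans_lt (by linarith)
  have := hN (n + 1 + m) (by omega)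
  rw [dist_eq_norm] at this
  exact this.le

lemma mu_smul (n j : ℕ) (y : X) : ((mu n j : ℝ) : 𝕜) • y = (((((n : ℝ) + 1)⁻¹ : ℝ)) : 𝕜) •
    ∑ m ∈ Finset.range (n + 1), if j < n + 1 + m then y else 0 := by
  rw [mu_cast, mul_smul, Finset.sum_smul]
  congr 1
  refine Finset.sum_congr rfl fun m _ => ?_
  split_ifs <;> simp

/-- The metric approximation property of the renormed space. -/
theorem exists_sys [CompleteSpace X] [TopologicalSpace.SeparableSpace X]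
    (hinf : ¬ FiniteDimensional 𝕜 X) (h : HasMAP 𝕜 X) :
    ∃ B : BSys 𝕜 X, B.M = 3 ∧ HasMAP 𝕜 (NSp B) := by
  obtain ⟨V, hV1, hVc, hVa, hVt⟩ := exists_cap h
  obtain ⟨s, x, f, hs, hx, hf, ho, hxf⟩ := exists_chain hinf V hV1 hVc hVa hVt
  let B : BSys 𝕜 X :=
    { x := x
      f := fun j => (f j : X →ₗ[𝕜] 𝕜)
      M := 3
      hM := by norm_num
      nx := hx
      nf := fun j y => (f j).le_of_opNorm_le (hf j) y
      ortho := ho }
  have hBM : B.M = 3 := rfl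
  let W : ℕ → X →L[𝕜] X := fun m => V (s m)
  have hW1 : ∀ n, ‖W n‖ ≤ 1 := fun n => hV1 _
  have hst : Tendsto s atTop atTop := tendsto_atTop_mono hs tendsto_id
  have hWt : ∀ x, Tendsto (fun n => W n x) atTop (𝓝 x) := fun x => (hVt x).comp hst
  have hSa : ∀ n, Apx (SS W n) := fun n => (Apx.sum _ _ fun m => hVa _).smul _
  have hSN : ∀ n y, B.N (SS W n y) ≤ (1 + 27 / ((n : ℝ) + 1)) * B.N y := by
    intro n y
    have h1 := N_mult' B (SS W n : X →ₗ[𝕜] X) (SS_norm W hW1 n) (mu n) (1 / ((n : ℝ) + 1))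
      (1 / ((n : ℝ) + 1)) (mu_nonneg n) (mu_le n) (mu_diff n) (fun j => ?_) (fun j y => ?_) y
    · have e : 1 + (2 * B.M * (1 / ((n : ℝ) + 1)) + 7 * B.M * (1 / ((n : ℝ) + 1))) =
          1 + 27 / ((n : ℝ) + 1) := by
        rw [hBM]; ring
      rwa [e] at h1
    · show ‖SS W n (x j) - ((mu n j : ℝ) : 𝕜) • x j‖ ≤ _
      rw [SS_apply, mu_smul, ← smul_sub, ← Finset.sum_sub_distrib]
      refine (avg_norm_le' n _ 1 zero_le_one fun m _ => ?_).trans (by rw [mul_one])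
      rw [mul_one]
      exact (hxf j (n + 1 + m)).1
    · show ‖f j (SS W n y) - ((mu n j : ℝ) : 𝕜) • f j y‖ ≤ _
      rw [SS_apply, mu_smul, map_smul, map_sum, ← smul_sub, ← Finset.sum_sub_distrib]
      refine avg_norm_le' n _ ‖y‖ (norm_nonneg y) fun m _ => ?_
      have h2 := (f j ∘L V (s (n + 1 + m)) - (if j < n + 1 + m then f j else 0)).le_of_opNorm_le
        (hxf j (n + 1 + m)).2 y
      refine le_trans (le_of_eq ?_) h2
      rw [sub_apply]
      congr 2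
      split_ifs <;> rfl
  choose R hRf hRn using fun n => hSa n (1 / ((n : ℝ) + 1)) (by positivity)
  have hRN : ∀ n y, B.N (R n y) ≤ (1 + 51 / ((n : ℝ) + 1)) * B.N y := by
    intro n y
    have h1 := hSN n y
    have h2 : B.N (R n y) ≤ B.N (SS W n y) + B.N ((SS W n - R n) y) := by
      have e : R n y = SS W n y - (SS W n - R n) y := by
        rw [sub_apply]; abel
      conv_lhs => rw [e]
      exact map_sub_le_add _ _ _
    have h3 := N_le_norm B ((SS W n - R n) y)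
    have h4 := (SS W n - R n).le_of_opNorm_le (hRn n) y
    have h5 := B.half_norm_le_N y
    rw [hBM] at h3
    have hn : (0 : ℝ) < 1 / ((n : ℝ) + 1) := by positivity
    have h6 : 1 / ((n : ℝ) + 1) * ‖y‖ ≤ 1 / ((n : ℝ) + 1) * (2 * B.N y) := by
      gcongr
      linarith
    have e2 : (1 + 51 / ((n : ℝ) + 1)) * B.N y = (1 + 27 / ((n : ℝ) + 1)) * B.N y +
        12 * (1 / ((n : ℝ) + 1) * (2 * B.N y)) := by ring
    rw [e2]
    linarith
  have hRt : ∀ y, Tendsto (fun n => R n y) atTop (𝓝 y) := by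
    intro y
    have h1 : Tendsto (fun n => (SS W n - R n) y) atTop (𝓝 0) := by
      rw [tendsto_zero_iff_norm_tendsto_zero]
      have h2 : Tendsto (fun n : ℕ => 1 / ((n : ℝ) + 1) * ‖y‖) atTop (𝓝 (0 * ‖y‖)) :=
        tendsto_one_div_add_atTop_nhds_zero_nat.mul_const _
      rw [zero_mul] at h2
      exact squeeze_zero (fun n => norm_nonneg _)
        (fun n => (SS W n - R n).le_of_opNorm_le (hRn n) y) h2
    have h2 := (SS_tendsto W hWt y).sub h1
    rw [sub_zero] at h2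
    refine h2.congr fun n => ?_
    rw [sub_apply]; abel
  let c : ℕ → ℝ := fun n => (1 + 51 / ((n : ℝ) + 1))⁻¹
  have hc0 : ∀ n, 0 < c n := fun n => by positivity
  have hct : Tendsto c atTop (𝓝 1) := by
    have h1 : Tendsto (fun n : ℕ => 51 * (1 / ((n : ℝ) + 1))) atTop (𝓝 (51 * 0)) :=
      tendsto_one_div_add_atTop_nhds_zero_nat.const_mul 51
    have h2 : Tendsto (fun n : ℕ => 1 + 51 / ((n : ℝ) + 1)) atTop (𝓝 1) := by
      have := h1.const_add 1
      simp only [mul_zero, add_zero] at this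
      refine this.congr fun n => ?_
      ring
    have h3 := h2.inv₀ one_ne_zero
    rw [inv_one] at h3
    exact h3
  refine ⟨B, hBM, ?_⟩
  let Q : ℕ → NSp B →L[𝕜] NSp B := fun n =>
    LinearMap.mkContinuous ((ψ B).toLinearMap ∘ₗ (((c n : ℝ) : 𝕜) • (R n : X →ₗ[𝕜] X)) ∘ₗ
      (ψ B).symm.toLinearMap) 1 (fun z => by
        obtain ⟨y, rfl⟩ := (ψ B).surjective z
        rw [LinearMap.comp_apply, LinearMap.comp_apply, LinearEquiv.coe_coe, LinearEquiv.coe_coe,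
          LinearEquiv.symm_apply_apply, norm_ψ, norm_ψ, LinearMap.smul_apply, map_smul_eq_mul,
          RCLike.norm_ofReal, abs_of_pos (hc0 n), one_mul]
        show (1 + 51 / ((n : ℝ) + 1))⁻¹ * B.N (R n y) ≤ _
        rw [inv_mul_le_iff₀ (by positivity)]
        exact hRN n y)
  have hQ : ∀ n y, Q n (Ψ B y) = Ψ B (((c n : ℝ) : 𝕜) • R n y) := fun n y => rfl
  refine hasMAP_of_seq Q (fun n => ?_) (fun n => LinearMap.mkContinuous_norm_le _ zero_le_one _)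
    (fun z => ?_)
  · have hf : FiniteDimensional 𝕜 (LinearMap.range (R n : X →ₗ[𝕜] X)) := hRf n
    have hf' : FiniteDimensional 𝕜 (Submodule.map (ψ B).toLinearMap
        (LinearMap.range (R n : X →ₗ[𝕜] X))) := inferInstance
    refine Submodule.finiteDimensional_of_le (S₂ := Submodule.map (ψ B).toLinearMap
        (LinearMap.range (R n : X →ₗ[𝕜] X))) ?_
    rintro _ ⟨z, rfl⟩
    exact ⟨_, Submodule.smul_mem _ _ ⟨(ψ B).symm z, rfl⟩, rfl⟩
  · obtain ⟨y, rfl⟩ := (Ψ B).surjective z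
    simp only [hQ]
    refine ((Ψ B).continuous.tendsto y).comp ?_
    have h1 : Tendsto (fun n => ((c n : ℝ) : 𝕜)) atTop (𝓝 ((1 : ℝ) : 𝕜)) :=
      (RCLike.continuous_ofReal.tendsto 1).comp hct
    have h2 := h1.smul (hRt y)
    rwa [RCLike.ofReal_one, one_smul] at h2

end

end Pool.Agent.KS6_80.PB
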